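import Pool.Agent.T2H62.MM.F

set_option autoImplicit false

/-! # The numbers of random primes in polylogarithmic windows -/

namespace Pool.Agent.T2H62.MM

open Finset Filter Topology MeasureTheory ProbabilityTheory
open Pool.Agent.T2H53.GW
open Pool.Agent.T2H62.MD
open Pool.Agent.T2H62.MS (log_ge_one pr_ge_block)
open Pool.Agent.T2H32.GM (om om_pos om_lim osc)

variable {Ω : Type*} [MeasurableSpace Ω] {μ : Measure Ω} [IsProbabilityMeasure μ] {S : ℕ → Set Ω}

theorem cnt_card (ω : Ω) (I : Finset ℕ) [DecidablePred fun n => ω ∈ S n] : cnt I S ω = ((I.filter (fun n => ω ∈ S n)).card : ℝ) := by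
  unfold cnt
  rw [card_filter]
  push_cast
  apply sum_congr rfl
  intro n _
  by_cases h : ω ∈ S n
  · rw [Set.indicator_of_mem h, if_pos h]
  · rw [Set.indicator_of_notMem h, if_neg h]

theorem lpow_mono (s t : ℝ) (h : s ≤ t) : ∀ᶠ x : ℕ in atTop, Real.log x ^ s ≤ Real.log x ^ t := by
  filter_upwards [tlog.eventually_ge_atTop 1] with x hx
  exact Real.rpow_le_rpow_of_exponent_le hx h

theorem GG_exp : GG * Real.exp (-Real.eulerMascheroniConstant) = 1 := by
  unfold GG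
  rw [← Real.exp_add]
  simp

theorem final_ae {A : ℝ} (hA : 0 < A) (hm : ∀ n, MeasurableSet (S n)) (hi : iIndepSet S μ)
    (hp : ∀ n, μ.real (S n) = pr A n) :
    ∀ᵐ ω ∂μ,
      (∀ t : ℝ, 2 < t → ∃ c C : ℝ, 0 < c ∧ ∀ᶠ x : ℕ in atTop, ∀ y : ℕ, Real.log x ^ t ≤ y → y ^ 2 ≤ x →
        c * (y / Real.log x) ≤ cnt (Ioc x (x + y)) S ω ∧ cnt (Ioc x (x + y)) S ω ≤ C * (y / Real.log x)) ∧
      (∀ ε : ℝ, 0 < ε → ∃ t : ℝ, ∀ᶠ x : ℕ in atTop, ∀ y : ℕ, Real.log x ^ t ≤ y → y ^ 2 ≤ x →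
        |cnt (Ioc x (x + y)) S ω - y / Real.log x| ≤ ε * (y / Real.log x)) ∧
      (∀ t : ℝ, 1 < t → ∃ δ : ℝ, 0 < δ ∧
        (∃ᶠ x : ℕ in atTop, cnt (Ioc x (x + ⌊Real.log x ^ t⌋₊)) S ω ≤ (1 - δ) * Real.log x ^ (t - 1)) ∧
        ∃ᶠ x : ℕ in atTop, (1 + δ) * Real.log x ^ (t - 1) ≤ cnt (Ioc x (x + ⌊Real.log x ^ t⌋₊)) S ω) := by
  have hae : ∀ᵐ ω ∂μ, ∀ s : {q : ℚ // 2 < (q : ℝ)}, ∀ k : ℕ, ∀ᶠ x : ℕ in atTop, ∀ y : ℕ, Real.log x ^ (s.1 : ℝ) ≤ 2 * y → y ^ 2 ≤ x →
      |cnt (Ioc x (x + y)) S ω - ∑ n ∈ Ioc x (x + y), pr A n| ≤ 1 / ((k : ℝ) + 1) * (y / Real.log x) :=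
    ae_all_iff.2 fun s => ae_all_iff.2 fun k => conc_unif hA hm hi hp s.1 s.2 (1 / ((k : ℝ) + 1)) (by positivity)
  filter_upwards [hae] with ω hω
  have hcon : ∀ s : ℝ, 2 < s → ∀ δ : ℝ, 0 < δ → ∀ᶠ x : ℕ in atTop, ∀ y : ℕ, Real.log x ^ s ≤ 2 * y → y ^ 2 ≤ x →
      |cnt (Ioc x (x + y)) S ω - ∑ n ∈ Ioc x (x + y), pr A n| ≤ δ * (y / Real.log x) := by
    intro s hs δ hδ
    obtain ⟨q, hq1, hq2⟩ := exists_rat_btwn hs
    obtain ⟨k, hk⟩ := exists_nat_one_div_lt hδ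
    filter_upwards [hω ⟨q, hq1⟩ k, lpow_mono q s hq2.le, tlog.eventually_ge_atTop 1] with x h1 h2 h3 y hy1 hy2
    refine (h1 y (h2.trans hy1) hy2).trans ?_
    exact mul_le_mul_of_nonneg_right hk.le (by positivity)
  refine ⟨?_, ?_, ?_⟩
  · intro t ht
    obtain ⟨s, hs⟩ : ∃ s, s = min t 3 := ⟨_, rfl⟩
    have hs2 : 2 < s := by rw [hs]; exact lt_min ht (by norm_num)
    have hs3 : s ≤ 3 := by rw [hs]; exact min_le_right _ _
    have hst : s ≤ t := by rw [hs]; exact min_le_left _ _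
    obtain ⟨c, hc, hlo⟩ := mean_lo_unif hA s hs2 hs3
    obtain ⟨C, hC, hup⟩ := mean_up hA s (by linarith)
    refine ⟨c / 2, C + c / 2, by positivity, ?_⟩
    filter_upwards [hlo, hup, hcon s hs2 (c / 2) (by positivity), lpow_mono s t hst, tlog.eventually_ge_atTop 1]
      with x h1 h2 h3 h4 h5 y hy1 hy2
    have hy0 : (0 : ℝ) ≤ y := Nat.cast_nonneg _
    have b1 := h1 y (h4.trans hy1) hy2
    have b2 := h2 y (by linarith) hy2
    have b3 := abs_le.1 (h3 y (by linarith) hy2)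
    constructor
    · have : c / 2 * ((y : ℝ) / Real.log x) = c * (y / Real.log x) - c / 2 * (y / Real.log x) := by ring
      linarith
    · have : (C + c / 2) * ((y : ℝ) / Real.log x) = C * (y / Real.log x) + c / 2 * (y / Real.log x) := by ring
      linarith
  · intro ε hε
    obtain ⟨e, he⟩ : ∃ e, e = min (ε / 2) 1 := ⟨_, rfl⟩
    have he0 : 0 < e := by rw [he]; exact lt_min (by positivity) one_pos
    have he1 : e ≤ 1 := by rw [he]; exact min_le_right _ _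
    have he2 : e ≤ ε / 2 := by rw [he]; exact min_le_left _ _
    obtain ⟨t₀, ht₀⟩ := mean_long hA e he0 he1
    refine ⟨max t₀ 3, ?_⟩
    filter_upwards [ht₀, hcon 3 (by norm_num) (ε / 2) (by positivity), lpow_mono t₀ (max t₀ 3) (le_max_left _ _),
      lpow_mono 3 (max t₀ 3) (le_max_right _ _), tlog.eventually_ge_atTop 1] with x h1 h2 h3 h4 h5 y hy1 hy2
    have hy0 : (0 : ℝ) ≤ y := Nat.cast_nonneg _
    have b1 := h1 y (by
      rw [← Real.rpow_natCast]
      exact h3.trans hy1) hy2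
    have b2 := h2 y (by linarith [h4.trans hy1]) hy2
    have b3 : e * ((y : ℝ) / Real.log x) ≤ ε / 2 * (y / Real.log x) := mul_le_mul_of_nonneg_right he2 (by positivity)
    calc |cnt (Ioc x (x + y)) S ω - y / Real.log x| = |(cnt (Ioc x (x + y)) S ω - ∑ n ∈ Ioc x (x + y), pr A n) +
          (∑ n ∈ Ioc x (x + y), pr A n - y / Real.log x)| := by
          congr 1
          ring
      _ ≤ ε / 2 * (y / Real.log x) + ε / 2 * (y / Real.log x) := (abs_add_le _ _).trans (add_le_add b2 (b1.trans b3))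
      _ = ε * (y / Real.log x) := by ring
  · intro t ht
    have hG := GG_pos
    have hc52 := hcon (5 / 2) (by norm_num)
    -- below
    obtain ⟨v1, hv1, ho1⟩ := osc _ om_lim (max (t + 1) 3)
    have hv1' : GG * om v1 < 1 := by
      rw [← GG_exp]
      exact mul_lt_mul_of_pos_left ho1 hG
    have hom1 := om_pos v1 (by linarith [(le_max_right (t + 1) 3).trans hv1])
    obtain ⟨d1, hd1⟩ : ∃ d1, d1 = (1 - GG * om v1) / 8 := ⟨_, rfl⟩
    have hd10 : 0 < d1 := by rw [hd1]; linarith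
    have hd11 : d1 ≤ 1 / 4 := by
      rw [hd1]
      have : 0 < GG * om v1 := by positivity
      linarith
    have hlow := short_low (S := S) hA ω v1 t d1 ((le_max_right _ _).trans hv1) ht (by linarith [(le_max_left (t + 1) 3).trans hv1])
      hd10 hd11 (by rw [hd1]; linarith) (hc52 d1 hd10)
    -- above
    obtain ⟨v2, hv2, ho2⟩ := osc_up _ om_lim (max (t + 1) 3)
    have hv2' : 1 < GG * om v2 := by
      rw [← GG_exp]
      exact mul_lt_mul_of_pos_left ho2 hG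
    obtain ⟨d2, hd2⟩ : ∃ d2, d2 = min ((GG * om v2 - 1) / 8) (1 / 4) := ⟨_, rfl⟩
    have hd20 : 0 < d2 := by rw [hd2]; apply lt_min <;> linarith
    have hd21 : d2 ≤ 1 / 4 := by rw [hd2]; exact min_le_right _ _
    have hd22 : d2 ≤ (GG * om v2 - 1) / 8 := by rw [hd2]; exact min_le_left _ _
    have hhigh := short_high (S := S) hA ω v2 t d2 ((le_max_right _ _).trans hv2) ht (by linarith [(le_max_left (t + 1) 3).trans hv2])
      hd20 hd21 (by linarith) (hc52 d2 hd20)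
    refine ⟨min d1 d2, lt_min hd10 hd20, ?_, ?_⟩
    · rw [frequently_atTop]
      intro a
      obtain ⟨N, hN1, hN2⟩ := (hlow.and (eventually_ge_atTop (max a 3))).exists
      obtain ⟨x, hx1, hx2⟩ := hN1
      refine ⟨x, ((le_max_left _ _).trans hN2).trans hx1, hx2.trans ?_⟩
      have hl : 0 ≤ Real.log (x : ℝ) := by linarith [log_ge_one (((le_max_right a 3).trans hN2).trans hx1)]
      apply mul_le_mul_of_nonneg_right _ (Real.rpow_nonneg hl _)
      linarith [min_le_left d1 d2]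
    · rw [frequently_atTop]
      intro a
      obtain ⟨N, hN1, hN2⟩ := (hhigh.and (eventually_ge_atTop (max a 3))).exists
      obtain ⟨x, hx1, hx2⟩ := hN1
      refine ⟨x, ((le_max_left _ _).trans hN2).trans hx1, le_trans ?_ hx2⟩
      have hl : 0 ≤ Real.log (x : ℝ) := by linarith [log_ge_one (((le_max_right a 3).trans hN2).trans hx1)]
      apply mul_le_mul_of_nonneg_right _ (Real.rpow_nonneg hl _)
      linarith [min_le_right d1 d2]

end Pool.Agent.T2H62.MM
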