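import Pool.Agent.T2H62.MM.I
import Pool.Agent.T2H62.MM.G

set_option autoImplicit false

/-! # The phenomenon of Maier in every short interval, almost surely -/

namespace Pool.Agent.T2H62.MM.Sh

open Finset Filter Topology MeasureTheory ProbabilityTheory
open Pool.Agent.T2H53.GW
open Pool.Agent.T2H62.MD
open Pool.Agent.T2H62.MM
open Pool.Agent.T2H62.MS (log_ge_one pr_ge_block)
open Pool.Agent.T2H32.GM (om om_pos om_lim osc)

variable {Ω : Type*} [MeasurableSpace Ω] {μ : Measure Ω} [IsProbabilityMeasure μ] {S : ℕ → Set Ω}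

theorem maier_ae {A : ℝ} (hA : 0 < A) (hm : ∀ n, MeasurableSet (S n)) (hi : iIndepSet S μ)
    (hp : ∀ n, μ.real (S n) = pr A n) :
    ∀ᵐ ω ∂μ, ∀ t : ℝ, 1 < t → ∃ δ : ℝ, 0 < δ ∧ ∀ e : ℝ, 0 < e → ∀ᶠ N : ℕ in atTop,
        (∃ x : ℕ, N ≤ x ∧ (x : ℝ) ≤ N + (N : ℝ) ^ e ∧ cnt (Ioc x (x + ⌊Real.log x ^ t⌋₊)) S ω ≤ (1 - δ) * Real.log x ^ (t - 1)) ∧
        ∃ x : ℕ, N ≤ x ∧ (x : ℝ) ≤ N + (N : ℝ) ^ e ∧ (1 + δ) * Real.log x ^ (t - 1) ≤ cnt (Ioc x (x + ⌊Real.log x ^ t⌋₊)) S ω := by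
  have hae : ∀ᵐ ω ∂μ, ∀ k : ℕ, ∀ᶠ x : ℕ in atTop, ∀ y : ℕ, Real.log x ^ (5 / 2 : ℝ) ≤ 2 * y → y ^ 2 ≤ x →
      |cnt (Ioc x (x + y)) S ω - ∑ n ∈ Ioc x (x + y), pr A n| ≤ 1 / ((k : ℝ) + 1) * (y / Real.log x) :=
    ae_all_iff.2 fun k => conc_unif hA hm hi hp (5 / 2) (by norm_num) (1 / ((k : ℝ) + 1)) (by positivity)
  filter_upwards [hae] with ω hω
  have hc52 : ∀ δ : ℝ, 0 < δ → ∀ᶠ x : ℕ in atTop, ∀ y : ℕ, Real.log x ^ (5 / 2 : ℝ) ≤ 2 * y → y ^ 2 ≤ x →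
      |cnt (Ioc x (x + y)) S ω - ∑ n ∈ Ioc x (x + y), pr A n| ≤ δ * (y / Real.log x) := by
    intro δ hδ
    obtain ⟨k, hk⟩ := exists_nat_one_div_lt hδ
    filter_upwards [hω k, tlog.eventually_ge_atTop 1] with x h1 h3 y hy1 hy2
    refine (h1 y hy1 hy2).trans ?_
    exact mul_le_mul_of_nonneg_right hk.le (by positivity)
  intro t ht
  have hG := GG_pos
  -- below
  obtain ⟨v1, hv1, ho1⟩ := osc _ om_lim (max (t + 1) 3)
  have hv1' : GG * om v1 < 1 := by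
    rw [← GG_exp]
    exact mul_lt_mul_of_pos_left ho1 hG
  have hom1 := om_pos v1 (by linarith [(le_max_right (t + 1) 3).trans hv1])
  obtain ⟨d1, hd1⟩ : ∃ d1, d1 = (1 - GG * om v1) / 8 := ⟨_, rfl⟩
  have hd10 : 0 < d1 := by rw [hd1]; linarith
  have hd11 : d1 ≤ 1 / 4 := by
    rw [hd1]
    have : 0 < GG * om v1 := by positivity
    linarith
  -- above
  obtain ⟨v2, hv2, ho2⟩ := osc_up _ om_lim (max (t + 1) 3)
  have hv2' : 1 < GG * om v2 := by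
    rw [← GG_exp]
    exact mul_lt_mul_of_pos_left ho2 hG
  obtain ⟨d2, hd2⟩ : ∃ d2, d2 = min ((GG * om v2 - 1) / 8) (1 / 4) := ⟨_, rfl⟩
  have hd20 : 0 < d2 := by rw [hd2]; apply lt_min <;> linarith
  have hd21 : d2 ≤ 1 / 4 := by rw [hd2]; exact min_le_right _ _
  have hd22 : d2 ≤ (GG * om v2 - 1) / 8 := by rw [hd2]; exact min_le_left _ _
  refine ⟨min d1 d2, lt_min hd10 hd20, fun e he => ?_⟩
  obtain ⟨e', he'⟩ : ∃ e', e' = min e 1 := ⟨_, rfl⟩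
  have he0 : 0 < e' := by rw [he']; exact lt_min he one_pos
  have he1 : e' ≤ 1 := by rw [he']; exact min_le_right _ _
  have hee : e' ≤ e := by rw [he']; exact min_le_left _ _
  have hlow := short_low (S := S) hA he0 he1 ω v1 t d1 ((le_max_right _ _).trans hv1) ht (by linarith [(le_max_left (t + 1) 3).trans hv1])
    hd10 hd11 (by rw [hd1]; linarith) (hc52 d1 hd10)
  have hhigh := short_high (S := S) hA he0 he1 ω v2 t d2 ((le_max_right _ _).trans hv2) ht (by linarith [(le_max_left (t + 1) 3).trans hv2])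
    hd20 hd21 (by linarith) (hc52 d2 hd20)
  filter_upwards [hlow, hhigh, eventually_ge_atTop 3] with N h1 h2 h3
  have hN1 : (1 : ℝ) ≤ N := by exact_mod_cast (by omega : 1 ≤ N)
  have hpow : (N : ℝ) ^ e' ≤ (N : ℝ) ^ e := Real.rpow_le_rpow_of_exponent_le hN1 hee
  constructor
  · obtain ⟨x, hx1, hx2, hx3⟩ := h1
    refine ⟨x, hx1, by linarith, hx3.trans ?_⟩
    have hl : 0 ≤ Real.log (x : ℝ) := by linarith [log_ge_one (h3.trans hx1)]
    apply mul_le_mul_of_nonneg_right _ (Real.rpow_nonneg hl _)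
    linarith [min_le_left d1 d2]
  · obtain ⟨x, hx1, hx2, hx3⟩ := h2
    refine ⟨x, hx1, by linarith, le_trans ?_ hx3⟩
    have hl : 0 ≤ Real.log (x : ℝ) := by linarith [log_ge_one (h3.trans hx1)]
    apply mul_le_mul_of_nonneg_right _ (Real.rpow_nonneg hl _)
    linarith [min_le_right d1 d2]

end Pool.Agent.T2H62.MM.Sh
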