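import Pool.Agent.T2H62.MS.C
import Pool.Agent.T2H32.GM.Fin2

set_option autoImplicit false

/-! # Means of the number of random primes in polylogarithmic windows -/

namespace Pool.Agent.T2H62.MM

open Finset Filter Topology MeasureTheory ProbabilityTheory
open Pool.Agent.T2H53.GW
open Pool.Agent.T2H62.MD
open Pool.Agent.T2H62.MS (log_ge_one pr_ge_block)
open Pool.Agent.H305R2 (VV VV_tendsto)
open Pool.Agent.T2H32.BF (V V_pos V_anti mertens)
open Pool.Agent.T2H32.GM (Rg fl_main V_le)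

theorem V_VV (j : ℕ) : V j * VV j = 1 := by
  have h := VV_mul j
  have h2 : V j = ∏ p ∈ PJ j, (1 - (p : ℝ)⁻¹) := by
    unfold V PJ
    have h3 : (range (j + 1)).filter Nat.Prime = (Icc 1 j).filter Nat.Prime := by
      ext p
      rw [mem_filter, mem_filter, mem_range, mem_Icc]
      constructor
      · rintro ⟨h4, h5⟩
        exact ⟨⟨h5.one_lt.le, by omega⟩, h5⟩
      · rintro ⟨h4, h5⟩
        exact ⟨by omega, h5⟩
    rw [h3]
    exact prod_congr rfl fun p _ => by rw [one_div]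
  rw [h2, mul_comm]
  exact h

theorem Rg_iff (j n : ℕ) : Rg j n ↔ ∀ p ∈ PJ j, ¬ p ∣ n := by
  unfold Rg PJ
  constructor
  · intro h p hp
    rw [mem_filter, mem_Icc] at hp
    exact h p hp.1.2 hp.2
  · intro h p hp hpp
    exact h p (by rw [mem_filter, mem_Icc]; exact ⟨⟨hpp.one_lt.le, hp⟩, hpp⟩)

theorem Rg_mono {i j : ℕ} (h : i ≤ j) {n : ℕ} (hn : Rg j n) : Rg i n := fun p hp hpp => hn p (hp.trans h) hpp

open scoped Classical in
/-- the number of the integers without prime factors `≤ j` in a window -/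
noncomputable def RC (j x y : ℕ) : ℕ := ((Ioc x (x + y)).filter (Rg j)).card

theorem RC_anti {i j : ℕ} (h : i ≤ j) (x y : ℕ) : RC j x y ≤ RC i x y := by
  classical
  unfold RC
  apply card_le_card
  intro n hn
  rw [mem_filter] at hn ⊢
  exact ⟨hn.1, Rg_mono h hn.2⟩

/-- the sieve level -/
noncomputable def lv (A : ℝ) (x : ℕ) : ℕ := ⌊A * Real.log x⌋₊

theorem lv_tendsto {A : ℝ} (hA : 0 < A) : Tendsto (lv A) atTop atTop :=
  tendsto_nat_floor_atTop.comp ((Real.tendsto_log_atTop.comp tendsto_natCast_atTop_atTop).const_mul_atTop hA)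

/-- the level changes by at most one in a window -/
theorem lv_window {A : ℝ} (hA : 0 < A) : ∀ᶠ x : ℕ in atTop, ∀ n : ℕ, x ≤ n → (n - x) ^ 2 ≤ x → lv A x ≤ lv A n ∧ lv A n ≤ lv A x + 1 ∧
    Real.log x ≤ Real.log n ∧ Real.log n ≤ Real.log x + 1 / Real.sqrt x := by
  filter_upwards [eventually_ge_atTop 3, rpow_big A (1 / 2) (by norm_num)] with x hx hxA n hn hn2
  have hx0 : (0 : ℝ) < x := by exact_mod_cast (by omega : 0 < x)
  have hn0 : (0 : ℝ) < n := by exact_mod_cast (by omega : 0 < n)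
  have hs : 0 < Real.sqrt (x : ℝ) := Real.sqrt_pos.2 hx0
  have h1 : Real.log x ≤ Real.log n := Real.log_le_log hx0 (by exact_mod_cast hn)
  have h2 : Real.log n ≤ Real.log x + 1 / Real.sqrt x := by
    have h3 : (n : ℝ) - x ≤ Real.sqrt x := by
      apply Real.le_sqrt_of_sq_le
      have : (((n - x : ℕ) : ℝ)) ^ 2 ≤ x := by exact_mod_cast hn2
      rwa [Nat.cast_sub hn] at this
    have h4 : Real.log n - Real.log x = Real.log (1 + (n - x) / x) := by
      rw [← Real.log_div hn0.ne' hx0.ne']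
      congr 1
      field_simp
      ring
    have h5 : Real.log (1 + (n - x) / x) ≤ (n - x) / x := by
      have hnx : (0 : ℝ) ≤ (n - x) / x := by
        apply div_nonneg _ hx0.le
        have : (x : ℝ) ≤ n := by exact_mod_cast hn
        linarith
      have := Real.log_le_sub_one_of_pos (show (0 : ℝ) < 1 + (n - x) / x by linarith)
      linarith
    have h6 : ((n : ℝ) - x) / x ≤ 1 / Real.sqrt x := by
      rw [div_le_div_iff₀ hx0 hs]
      have h7 : Real.sqrt x * Real.sqrt x = x := Real.mul_self_sqrt hx0.le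
      nlinarith
    linarith
  have hlx : 0 ≤ Real.log (x : ℝ) := by linarith [log_ge_one hx]
  refine ⟨Nat.floor_le_floor (mul_le_mul_of_nonneg_left h1 hA.le), ?_, h1, h2⟩
  have h3 : A * Real.log n ≤ A * Real.log x + 1 := by
    have h4 : A * (1 / Real.sqrt x) ≤ 1 := by
      rw [mul_one_div, div_le_one hs, Real.sqrt_eq_rpow]
      exact hxA.le
    have := mul_le_mul_of_nonneg_left h2 hA.le
    linarith
  unfold lv
  calc ⌊A * Real.log n⌋₊ ≤ ⌊A * Real.log x + 1⌋₊ := Nat.floor_le_floor h3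
    _ = ⌊A * Real.log x⌋₊ + 1 := Nat.floor_add_one (by positivity)

theorem VV_succ_le (j : ℕ) (hj : 1 ≤ j) : VV (j + 1) ≤ (1 + 1 / j) * VV j := by
  have hj0 : (0 : ℝ) < j := by exact_mod_cast hj
  have h1 : (0 : ℝ) < VV j := by linarith [one_le_VV j]
  have h2 : VV (j + 1) = (if (j + 1).Prime then (1 - ((j + 1 : ℕ) : ℝ)⁻¹)⁻¹ * VV j else VV j) := by
    unfold VV
    have h3 : (Icc 1 (j + 1)).filter Nat.Prime = if (j + 1).Prime then insert (j + 1) ((Icc 1 j).filter Nat.Prime) else (Icc 1 j).filter Nat.Prime :=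
      PJ_succ j
    rw [h3]
    split_ifs with h
    · rw [prod_insert (by rw [mem_filter, mem_Icc]; omega)]
    · rfl
  rw [h2]
  split_ifs with h
  · apply mul_le_mul_of_nonneg_right _ h1.le
    have h3 : (1 - ((j + 1 : ℕ) : ℝ)⁻¹)⁻¹ = 1 + 1 / j := by
      push_cast
      field_simp
      ring_nf
      field_simp
    exact h3.le
  · have : 0 ≤ (1 / (j : ℝ)) * VV j := by positivity
    linarith

/-- upper bound for the mean in terms of the sieve -/
theorem mean_le {A : ℝ} (hA : 0 < A) (ε : ℝ) (hε : 0 < ε) : ∀ᶠ x : ℕ in atTop, ∀ y : ℕ, y ^ 2 ≤ x →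
    ∑ n ∈ Ioc x (x + y), pr A n ≤ (1 + ε) * (VV (lv A x) / Real.log x) * RC (lv A x) x y := by
  classical
  filter_upwards [lv_window hA, (lv_tendsto hA).eventually_ge_atTop (⌈1 / ε⌉₊ + 1), eventually_ge_atTop 3] with x h1 h2 h3 y hy
  obtain ⟨j, hj⟩ : ∃ j, j = lv A x := ⟨_, rfl⟩
  rw [← hj] at h2 ⊢
  have hj1 : 1 ≤ j := by omega
  have hj0 : (0 : ℝ) < j := by exact_mod_cast hj1
  have hjε : 1 / (j : ℝ) ≤ ε := by
    have h4 : (1 / ε : ℝ) ≤ j := by
      have h5 : (⌈1 / ε⌉₊ : ℝ) ≤ j := by exact_mod_cast (by omega : ⌈1 / ε⌉₊ ≤ j)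
      exact (Nat.le_ceil _).trans h5
    rw [div_le_iff₀ hj0]
    rw [div_le_iff₀ hε] at h4
    linarith
  have hlx : 1 ≤ Real.log (x : ℝ) := log_ge_one h3
  have hVV := one_le_VV j
  have hpr : ∀ n ∈ Ioc x (x + y), pr A n ≤ if Rg j n then (1 + ε) * (VV j / Real.log x) else 0 := by
    intro n hn
    rw [mem_Ioc] at hn
    obtain ⟨a1, a2, a3, a4⟩ := h1 n hn.1.le (le_trans (Nat.pow_le_pow_left (by omega) 2) hy)
    rw [← hj] at a1 a2
    have hln : 0 < Real.log (n : ℝ) := by linarith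
    split_ifs with h
    · have h5 : pr A n ≤ VV (lv A n) / Real.log n := by
        unfold pr
        split_ifs
        · exact min_le_right _ _
        · exact div_nonneg (by linarith [one_le_VV (lv A n)]) hln.le
      refine h5.trans ?_
      have h6 : VV (lv A n) ≤ (1 + ε) * VV j := by
        refine (VV_mono a2).trans ((VV_succ_le j hj1).trans ?_)
        exact mul_le_mul_of_nonneg_right (by linarith) (by linarith)
      calc VV (lv A n) / Real.log n ≤ ((1 + ε) * VV j) / Real.log x :=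
            div_le_div₀ (by positivity) h6 (by linarith) a3
        _ = (1 + ε) * (VV j / Real.log x) := by ring
    · unfold pr
      rw [if_neg]
      intro h4
      apply h
      intro p hp hpp
      apply h4 p hpp
      have h5 : (p : ℝ) ≤ j := by exact_mod_cast hp
      have h6 : (j : ℝ) ≤ A * Real.log x := by rw [hj]; exact Nat.floor_le (by positivity)
      exact h5.trans (h6.trans (mul_le_mul_of_nonneg_left a3 hA.le))
  refine (sum_le_sum hpr).trans (le_of_eq ?_)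
  unfold RC
  rw [← sum_filter, sum_const, nsmul_eq_mul, mul_comm]

/-- lower bound for the mean in terms of the sieve -/
theorem mean_ge {A : ℝ} (hA : 0 < A) (ε : ℝ) (hε : 0 < ε) (hε1 : ε < 1) : ∀ᶠ x : ℕ in atTop, ∀ y : ℕ, y ^ 2 ≤ x →
    (1 - ε) * (VV (lv A x) / Real.log x) * RC (lv A x + 1) x y ≤ ∑ n ∈ Ioc x (x + y), pr A n := by
  classical
  obtain ⟨a₀, ha₀, hpr0⟩ := pr_ge_block hA
  have hT : Tendsto (fun n : ℕ => (n : ℝ)) atTop atTop := tendsto_natCast_atTop_atTop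
  filter_upwards [lv_window hA, eventually_ge_atTop a₀, eventually_ge_atTop 3, rpow_big (1 / ε) (1 / 2) (by norm_num)]
    with x h1 h2 h3 h4 y hy
  obtain ⟨j, hj⟩ : ∃ j, j = lv A x := ⟨_, rfl⟩
  rw [← hj]
  have hlx : 1 ≤ Real.log (x : ℝ) := log_ge_one h3
  have hVV := one_le_VV j
  have hx0 : (0 : ℝ) < x := by exact_mod_cast (by omega : 0 < x)
  have hs : 0 < Real.sqrt (x : ℝ) := Real.sqrt_pos.2 hx0
  have hsε : 1 / Real.sqrt (x : ℝ) ≤ ε := by
    rw [← Real.sqrt_eq_rpow] at h4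
    rw [div_le_iff₀ hs]
    rw [div_lt_iff₀ hε] at h4
    linarith
  have hpr : ∀ n ∈ Ioc x (x + y), (if Rg (j + 1) n then (1 - ε) * (VV j / Real.log x) else 0) ≤ pr A n := by
    intro n hn
    rw [mem_Ioc] at hn
    obtain ⟨a1, a2, a3, a4⟩ := h1 n hn.1.le (le_trans (Nat.pow_le_pow_left (by omega) 2) hy)
    rw [← hj] at a1 a2
    have hln : 0 < Real.log (n : ℝ) := by linarith
    split_ifs with h
    · have h5 := hpr0 n (lv A n) (by omega) rfl
      have h6 : ∀ p ∈ PJ (lv A n), ¬ p ∣ n := (Rg_iff _ _).1 (Rg_mono a2 h)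
      rw [if_pos h6] at h5
      refine le_trans ?_ h5
      have h7 : VV j ≤ VV (lv A n) := VV_mono a1
      have h8 : (1 - ε) * Real.log n ≤ Real.log x := by
        have h9 : Real.log n ≤ Real.log x + ε := by linarith
        nlinarith
      rw [mul_one_div, ← mul_div_assoc, div_le_div_iff₀ (by linarith) hln]
      calc (1 - ε) * VV j * Real.log n = VV j * ((1 - ε) * Real.log n) := by ring
        _ ≤ VV j * Real.log x := mul_le_mul_of_nonneg_left h8 (by linarith)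
        _ ≤ VV (lv A n) * Real.log x := mul_le_mul_of_nonneg_right h7 (by linarith)
    · exact pr_nonneg A n
  refine le_trans (le_of_eq ?_) (sum_le_sum hpr)
  unfold RC
  rw [← sum_filter, sum_const, nsmul_eq_mul, mul_comm]

/-- `VV` at the level -/
theorem VV_lv {A : ℝ} (hA : 0 < A) : ∀ᶠ x : ℕ in atTop,
    1 / 2 * Real.log (Real.log x) ≤ VV (lv A x) ∧ VV (lv A x) ≤ 4 * Real.log (Real.log x) := by
  have hT : Tendsto (fun n : ℕ => (n : ℝ)) atTop atTop := tendsto_natCast_atTop_atTop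
  have hL : Tendsto (fun n : ℕ => Real.log (n : ℝ)) atTop atTop := Real.tendsto_log_atTop.comp hT
  have h1 := VV_tendsto.eventually (eventually_lt_nhds (show Real.exp Real.eulerMascheroniConstant < 2 by
    have := GG_lt_two
    unfold GG at this
    exact this))
  have h2 := VV_tendsto.eventually (eventually_gt_nhds (show (1 : ℝ) < Real.exp Real.eulerMascheroniConstant by
    rw [Real.one_lt_exp_iff]
    linarith [Real.one_half_lt_eulerMascheroniConstant]))
  have g2 : ∀ᶠ u : ℝ in atTop, Real.sqrt u ≤ A * u - 1 := by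
    filter_upwards [eventually_ge_atTop ((2 / A) ^ 2), eventually_ge_atTop (2 / A), eventually_gt_atTop 0] with u hu hu1 hu2
    have h1 : 2 / A ≤ Real.sqrt u := by
      rw [← Real.sqrt_sq (by positivity : (0 : ℝ) ≤ 2 / A)]
      exact Real.sqrt_le_sqrt hu
    rw [div_le_iff₀ hA] at h1 hu1
    have h2 : Real.sqrt u * Real.sqrt u = u := Real.mul_self_sqrt hu2.le
    have h3 : 0 < Real.sqrt u := Real.sqrt_pos.2 hu2
    nlinarith
  filter_upwards [(lv_tendsto hA).eventually h1, (lv_tendsto hA).eventually h2, (lv_tendsto hA).eventually_ge_atTop 3,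
    hL.eventually g2, hL.eventually_ge_atTop (A + 1)] with x a1 a2 a3 a4 a5
  obtain ⟨j, hj⟩ : ∃ j, j = lv A x := ⟨_, rfl⟩
  rw [← hj] at a1 a2 a3 ⊢
  have hj3 : (3 : ℝ) ≤ j := by exact_mod_cast a3
  have hlj : 0 < Real.log (j : ℝ) := Real.log_pos (by linarith)
  have hlog0 : 0 < Real.log (x : ℝ) := by linarith
  have hjA : (j : ℝ) ≤ A * Real.log x := by rw [hj]; exact Nat.floor_le (by positivity)
  have hjs : Real.sqrt (Real.log x) ≤ j := by
    have h13 := Nat.lt_floor_add_one (A * Real.log x)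
    have h14 : (⌊A * Real.log x⌋₊ : ℝ) = j := by rw [hj]; rfl
    rw [h14] at h13
    linarith
  rw [div_lt_iff₀ hlj] at a1
  rw [lt_div_iff₀ hlj, one_mul] at a2
  have hsq : 0 < Real.sqrt (Real.log (x : ℝ)) := Real.sqrt_pos.2 hlog0
  have h3 := Real.log_le_log hsq hjs
  rw [Real.log_sqrt hlog0.le] at h3
  have h5 : Real.log (j : ℝ) ≤ 2 * Real.log (Real.log x) := by
    have h6 : Real.log (j : ℝ) ≤ Real.log (Real.log x * Real.log x) :=
      Real.log_le_log (by linarith) (hjA.trans (mul_le_mul_of_nonneg_right (by linarith) hlog0.le))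
    rw [Real.log_mul hlog0.ne' hlog0.ne'] at h6
    linarith
  constructor
  · linarith
  · linarith

/-- long windows: the mean is close to `y / log x` -/
theorem mean_long {A : ℝ} (hA : 0 < A) (ε : ℝ) (hε : 0 < ε) (hε1 : ε ≤ 1) : ∃ t₀ : ℕ, ∀ᶠ x : ℕ in atTop, ∀ y : ℕ,
    Real.log x ^ t₀ ≤ y → y ^ 2 ≤ x → |∑ n ∈ Ioc x (x + y), pr A n - y / Real.log x| ≤ ε * (y / Real.log x) := by
  classical
  obtain ⟨C0, hC0, hfl⟩ := fl_main
  obtain ⟨b, hb1, hb2⟩ : ∃ b : ℕ, C0 ≤ b ∧ (1 / 2 : ℝ) ^ b ≤ ε / 16 := by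
    obtain ⟨n, hn⟩ := exists_pow_lt_of_lt_one (show (0 : ℝ) < ε / 16 by positivity) (show (1 / 2 : ℝ) < 1 by norm_num)
    refine ⟨max C0 n, le_max_left _ _, le_trans ?_ hn.le⟩
    exact pow_le_pow_of_le_one (by norm_num) (by norm_num) (le_max_right _ _)
  obtain ⟨K, hK0, hK⟩ := hfl b hb1
  obtain ⟨e, he⟩ : ∃ e : ℕ, e = 4 * C0 * b + 1 := ⟨_, rfl⟩
  rw [← he] at hK
  refine ⟨e + 1, ?_⟩
  have hT : Tendsto (fun n : ℕ => (n : ℝ)) atTop atTop := tendsto_natCast_atTop_atTop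
  have hL : Tendsto (fun n : ℕ => Real.log (n : ℝ)) atTop atTop := Real.tendsto_log_atTop.comp hT
  -- the error is small
  have g1 : ∀ᶠ u : ℝ in atTop, K * (2 * A) ^ e * (4 * Real.log u) ≤ ε / 16 * u := by
    have h3 := Real.isLittleO_log_id_atTop.bound (show (0 : ℝ) < ε / 16 / (K * (2 * A) ^ e * 4) by positivity)
    filter_upwards [h3, eventually_ge_atTop 1] with u hu hu1
    rw [Real.norm_eq_abs, Real.norm_eq_abs, id, abs_of_nonneg (by linarith : (0 : ℝ) ≤ u)] at hu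
    have := mul_le_mul_of_nonneg_left ((le_abs_self _).trans hu) (show (0 : ℝ) ≤ K * (2 * A) ^ e * 4 by positivity)
    calc K * (2 * A) ^ e * (4 * Real.log u) = K * (2 * A) ^ e * 4 * Real.log u := by ring
      _ ≤ K * (2 * A) ^ e * 4 * (ε / 16 / (K * (2 * A) ^ e * 4) * u) := this
      _ = ε / 16 * u := by field_simp
  filter_upwards [mean_le hA (ε / 16) (by positivity), mean_ge hA (ε / 16) (by positivity) (by linarith), VV_lv hA, hL.eventually g1,
    eventually_ge_atTop 3, (lv_tendsto hA).eventually_ge_atTop (⌈16 / ε⌉₊ + 1), hL.eventually_ge_atTop (1 / A)]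
    with x h1 h2 h3 h4 h5 h6 h7 y hy hy2
  have h1' := h1 y hy2
  have h2' := h2 y hy2
  obtain ⟨ℓ, hℓ⟩ : ∃ ℓ : ℝ, ℓ = Real.log x := ⟨_, rfl⟩
  obtain ⟨j, hj⟩ : ∃ j, j = lv A x := ⟨_, rfl⟩
  obtain ⟨sm, hsm⟩ : ∃ sm : ℝ, sm = ∑ n ∈ Ioc x (x + y), pr A n := ⟨_, rfl⟩
  rw [← hℓ] at h1' h2' h3 h4 h7 hy ⊢
  rw [← hj] at h1' h2' h3 h6
  rw [← hsm] at h1' h2' ⊢
  have hℓ1 : 1 ≤ ℓ := by rw [hℓ]; exact log_ge_one h5
  have hj1 : 1 ≤ j := by omega
  have hj0 : (0 : ℝ) < j := by exact_mod_cast hj1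
  have hjA : (j : ℝ) ≤ A * ℓ := by rw [hj, hℓ]; exact Nat.floor_le (by rw [← hℓ]; positivity)
  have hVV0 : 0 < VV j := by linarith [one_le_VV j]
  have hVj := V_VV j
  have hVj1 := V_VV (j + 1)
  have hV0 : 0 < V j := V_pos j
  have hV1 : 0 < V (j + 1) := V_pos (j + 1)
  have hy0 : (0 : ℝ) ≤ y := Nat.cast_nonneg y
  have hyℓ : 0 ≤ (y : ℝ) / ℓ := by positivity
  -- the error term
  have herr : ∀ i : ℕ, 1 ≤ i → i ≤ j + 1 → VV j / ℓ * (K * (i : ℝ) ^ e) ≤ ε / 16 * (y / ℓ) := by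
    intro i hi1 hi
    have b1 : (i : ℝ) ≤ 2 * A * ℓ := by
      have b2 : (i : ℝ) ≤ j + 1 := by exact_mod_cast hi
      have b3 : 1 ≤ A * ℓ := by
        rw [div_le_iff₀ hA] at h7
        linarith
      linarith
    have b2 : (i : ℝ) ^ e ≤ (2 * A) ^ e * ℓ ^ e := by
      rw [← mul_pow]
      exact pow_le_pow_left₀ (Nat.cast_nonneg _) b1 e
    have b3 : VV j * (K * (i : ℝ) ^ e) ≤ ε / 16 * y := by
      calc VV j * (K * (i : ℝ) ^ e) ≤ (4 * Real.log ℓ) * (K * ((2 * A) ^ e * ℓ ^ e)) := by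
            apply mul_le_mul h3.2 (mul_le_mul_of_nonneg_left b2 hK0.le) (by positivity)
            linarith [h3.2]
        _ = (K * (2 * A) ^ e * (4 * Real.log ℓ)) * ℓ ^ e := by ring
        _ ≤ (ε / 16 * ℓ) * ℓ ^ e := mul_le_mul_of_nonneg_right h4 (by positivity)
        _ = ε / 16 * ℓ ^ (e + 1) := by ring
        _ ≤ ε / 16 * y := mul_le_mul_of_nonneg_left hy (by positivity)
    calc VV j / ℓ * (K * (i : ℝ) ^ e) = VV j * (K * (i : ℝ) ^ e) / ℓ := by ring
      _ ≤ (ε / 16 * y) / ℓ := div_le_div_of_nonneg_right b3 (by linarith)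
      _ = ε / 16 * (y / ℓ) := by ring
  have hup := hK j x y hj1
  have hlo := hK (j + 1) x y (by omega)
  have hRC : (RC j x y : ℝ) ≤ V j * y + ε / 16 * (V j * y) + K * (j : ℝ) ^ e := by
    have b1 := (abs_le.1 hup).2
    have b2 : (RC j x y : ℝ) = (((Ioc x (x + y)).filter (Rg j)).card : ℝ) := rfl
    have b3 : (1 / 2 : ℝ) ^ b * (V j * y) ≤ ε / 16 * (V j * y) := mul_le_mul_of_nonneg_right hb2 (by positivity)
    rw [b2]
    linarith
  have hRC1 : V (j + 1) * y - ε / 16 * (V (j + 1) * y) - K * ((j + 1 : ℕ) : ℝ) ^ e ≤ (RC (j + 1) x y : ℝ) := by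
    have b1 := (abs_le.1 hlo).1
    have b2 : (RC (j + 1) x y : ℝ) = (((Ioc x (x + y)).filter (Rg (j + 1))).card : ℝ) := rfl
    have b3 : (1 / 2 : ℝ) ^ b * (V (j + 1) * y) ≤ ε / 16 * (V (j + 1) * y) := mul_le_mul_of_nonneg_right hb2 (by positivity)
    rw [b2]
    linarith
  rw [abs_le]
  constructor
  · -- lower bound
    have b0 : (1 - ε / 16) * (VV j / ℓ) * (V (j + 1) * y - ε / 16 * (V (j + 1) * y) - K * ((j + 1 : ℕ) : ℝ) ^ e) ≤ sm :=
      le_trans (mul_le_mul_of_nonneg_left hRC1 (by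
        have : 0 ≤ 1 - ε / 16 := by linarith
        positivity)) h2'
    -- `VV j V (j+1) ≥ 1 - ε / 16`
    have hjε : 1 / (j : ℝ) ≤ ε / 16 := by
      have c1 : (16 / ε : ℝ) ≤ j := by
        have c2 : (⌈16 / ε⌉₊ : ℝ) ≤ j := by exact_mod_cast (by omega : ⌈16 / ε⌉₊ ≤ j)
        exact (Nat.le_ceil _).trans c2
      rw [div_le_iff₀ hj0]
      rw [div_le_iff₀ hε] at c1
      linarith
    have b1 : 1 - ε / 16 ≤ VV j * V (j + 1) := by
      have c1 := VV_succ_le j hj1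
      have c2 : VV (j + 1) ≤ (1 + ε / 16) * VV j := c1.trans (mul_le_mul_of_nonneg_right (by linarith) hVV0.le)
      have c3 := mul_le_mul_of_nonneg_left c2 hV1.le
      rw [hVj1] at c3
      have c4 : V (j + 1) * ((1 + ε / 16) * VV j) = (1 + ε / 16) * (VV j * V (j + 1)) := by ring
      rw [c4] at c3
      nlinarith
    have b2 := herr (j + 1) (by omega) le_rfl
    have b3 : (1 - ε / 16) * (VV j / ℓ) * (V (j + 1) * y - ε / 16 * (V (j + 1) * y) - K * ((j + 1 : ℕ) : ℝ) ^ e) =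
        (1 - ε / 16) * ((1 - ε / 16) * (VV j * V (j + 1)) * (y / ℓ) - VV j / ℓ * (K * ((j + 1 : ℕ) : ℝ) ^ e)) := by ring
    rw [b3] at b0
    have b4 : (1 - ε / 16) * (1 - ε / 16) * (y / ℓ) ≤ (1 - ε / 16) * (VV j * V (j + 1)) * (y / ℓ) := by
      apply mul_le_mul_of_nonneg_right _ hyℓ
      apply mul_le_mul_of_nonneg_left b1 (by linarith)
    have b5 : (1 - ε / 16) * ((1 - ε / 16) * (1 - ε / 16) * (y / ℓ) - ε / 16 * (y / ℓ)) ≤ sm := by
      refine le_trans ?_ b0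
      apply mul_le_mul_of_nonneg_left _ (by linarith)
      linarith
    have b6 : (1 - ε) * (y / ℓ) ≤ (1 - ε / 16) * ((1 - ε / 16) * (1 - ε / 16) * (y / ℓ) - ε / 16 * (y / ℓ)) := by
      have c1 : (1 - ε / 16) * ((1 - ε / 16) * (1 - ε / 16) * (y / ℓ) - ε / 16 * (y / ℓ)) =
          ((1 - ε / 16) * ((1 - ε / 16) * (1 - ε / 16) - ε / 16)) * (y / ℓ) := by ring
      rw [c1]
      apply mul_le_mul_of_nonneg_right _ hyℓ
      nlinarith [mul_nonneg hε.le (sub_nonneg.2 hε1), mul_nonneg (mul_nonneg hε.le hε.le) (sub_nonneg.2 hε1)]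
    linarith
  · -- upper bound
    have b0 : sm ≤ (1 + ε / 16) * (VV j / ℓ) * (V j * y + ε / 16 * (V j * y) + K * (j : ℝ) ^ e) :=
      h1'.trans (mul_le_mul_of_nonneg_left hRC (by positivity))
    have b2 := herr j hj1 (by omega)
    have b3 : (1 + ε / 16) * (VV j / ℓ) * (V j * y + ε / 16 * (V j * y) + K * (j : ℝ) ^ e) =
        (1 + ε / 16) * ((1 + ε / 16) * (V j * VV j) * (y / ℓ) + VV j / ℓ * (K * (j : ℝ) ^ e)) := by ring
    rw [b3, hVj] at b0
    have b5 : sm ≤ (1 + ε / 16) * ((1 + ε / 16) * 1 * (y / ℓ) + ε / 16 * (y / ℓ)) := by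
      refine b0.trans ?_
      apply mul_le_mul_of_nonneg_left _ (by linarith)
      linarith
    have b6 : (1 + ε / 16) * ((1 + ε / 16) * 1 * (y / ℓ) + ε / 16 * (y / ℓ)) ≤ (1 + ε) * (y / ℓ) := by
      have c1 : (1 + ε / 16) * ((1 + ε / 16) * 1 * (y / ℓ) + ε / 16 * (y / ℓ)) =
          ((1 + ε / 16) * ((1 + ε / 16) + ε / 16)) * (y / ℓ) := by ring
      rw [c1]
      apply mul_le_mul_of_nonneg_right _ hyℓ
      nlinarith [mul_nonneg hε.le (sub_nonneg.2 hε1)]
    linarith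

end Pool.Agent.T2H62.MM
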