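import Pool.Agent.T2H62.MM.A
import Pool.Agent.T2H62.MD.K

set_option autoImplicit false

/-! # Windows of length `(log x) ^ t`: bounds for the mean, and concentration -/

namespace Pool.Agent.T2H62.MM

open Finset Filter Topology MeasureTheory ProbabilityTheory
open Pool.Agent.T2H53.GW
open Pool.Agent.T2H62.MD
open Pool.Agent.T2H62.MS (log_ge_one pr_ge_block)
open Pool.Agent.H305R2 (VV VV_tendsto)
open Pool.Agent.T2H32.BF (V V_pos V_anti mertens)
open Pool.Agent.T2H32.GM (Rg fl_main V_le)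

theorem tlog : Tendsto (fun n : ℕ => Real.log (n : ℝ)) atTop atTop :=
  Real.tendsto_log_atTop.comp tendsto_natCast_atTop_atTop

/-- `M log log x ≤ (log x) ^ a` -/
theorem loglog_small (M a : ℝ) (ha : 0 < a) (hM : 0 < M) : ∀ᶠ x : ℕ in atTop, M * Real.log (Real.log x) ≤ Real.log x ^ a := by
  have h3 := (isLittleO_log_rpow_atTop ha).bound (show (0 : ℝ) < 1 / M by positivity)
  have h4 : ∀ᶠ u : ℝ in atTop, M * Real.log u ≤ u ^ a := by
    filter_upwards [h3, eventually_ge_atTop 1] with u hu hu1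
    rw [Real.norm_eq_abs, Real.norm_eq_abs, abs_of_nonneg (Real.rpow_nonneg (by linarith) a)] at hu
    have h6 := mul_le_mul_of_nonneg_left ((le_abs_self _).trans hu) hM.le
    have h7 : M * (1 / M * u ^ a) = u ^ a := by field_simp
    rwa [h7] at h6
  exact tlog.eventually h4

theorem mean_up {A : ℝ} (hA : 0 < A) (t : ℝ) (ht : 1 < t) : ∃ C : ℝ, 0 < C ∧ ∀ᶠ x : ℕ in atTop, ∀ y : ℕ,
    Real.log x ^ t ≤ 2 * y → y ^ 2 ≤ x → ∑ n ∈ Ioc x (x + y), pr A n ≤ C * (y / Real.log x) := by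
  classical
  obtain ⟨C0, hC0, hfl⟩ := fl_main
  obtain ⟨K, hK0, hK⟩ := hfl C0 le_rfl
  obtain ⟨B, hB0, hB⟩ := V_le
  obtain ⟨e, he⟩ : ∃ e : ℕ, e = 4 * C0 * C0 + 1 := ⟨_, rfl⟩
  rw [← he] at hK
  have he5 : 5 ≤ e := by rw [he]; nlinarith
  have heR : (5 : ℝ) ≤ e := by exact_mod_cast he5
  have he0 : (0 : ℝ) < e := by linarith
  refine ⟨8 * (3 * B * e + 1), by positivity, ?_⟩
  have g1 : ∀ᶠ u : ℝ in atTop, u ^ (1 / (e : ℝ)) ≤ A * u - 1 := by
    have h3 := (tendsto_rpow_atTop (show (0 : ℝ) < 1 / 2 by norm_num)).eventually_ge_atTop (2 / A)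
    filter_upwards [h3, eventually_ge_atTop (2 / A), eventually_ge_atTop 1] with u hu hu1 hu2
    have h4 : u ^ (1 / (e : ℝ)) ≤ u ^ (1 / 2 : ℝ) := by
      apply Real.rpow_le_rpow_of_exponent_le hu2
      apply one_div_le_one_div_of_le (by norm_num) (by linarith)
    have h5 : u ^ (1 / 2 : ℝ) * u ^ (1 / 2 : ℝ) = u := by
      rw [← Real.rpow_add (by linarith)]
      norm_num
    rw [div_le_iff₀ hA] at hu hu1
    have h6 : 0 < u ^ (1 / 2 : ℝ) := by positivity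
    nlinarith
  have g2 : ∀ᶠ u : ℝ in atTop, (2 : ℝ) ≤ u ^ (1 / (e : ℝ)) - 1 ∧ u ^ (1 / (2 * e : ℝ)) ≤ u ^ (1 / (e : ℝ)) - 1 := by
    have h3 := (tendsto_rpow_atTop (show (0 : ℝ) < 1 / (2 * e) by positivity)).eventually_ge_atTop 3
    filter_upwards [h3, eventually_ge_atTop 1] with u hu hu2
    have h5 : u ^ (1 / (2 * e : ℝ)) * u ^ (1 / (2 * e : ℝ)) = u ^ (1 / (e : ℝ)) := by
      rw [← Real.rpow_add (by linarith)]
      congr 1
      field_simp
      norm_num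
    constructor
    · nlinarith
    · nlinarith
  filter_upwards [mean_le hA 1 one_pos, VV_lv hA, tlog.eventually g1, tlog.eventually g2, tlog.eventually_ge_atTop 3,
    loglog_small (2 * K) (t - 1) (by linarith) (by positivity)] with x h1 h2 h3 h4 h5 h6 y hy hy2
  obtain ⟨ℓ, hℓ⟩ : ∃ ℓ : ℝ, ℓ = Real.log x := ⟨_, rfl⟩
  obtain ⟨j, hj⟩ : ∃ j, j = lv A x := ⟨_, rfl⟩
  have h1' := h1 y hy2
  rw [← hℓ] at h1' h2 h3 h4 h5 h6 hy ⊢
  rw [← hj] at h1' h2
  obtain ⟨T, hT⟩ : ∃ T : ℕ, T = ⌊ℓ ^ (1 / (e : ℝ))⌋₊ := ⟨_, rfl⟩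
  have hℓ0 : 0 < ℓ := by linarith
  have hl2 : 1 ≤ Real.log ℓ := by
    rw [Real.le_log_iff_exp_le hℓ0]
    have := Real.exp_one_lt_d9
    linarith
  have hT1 : (T : ℝ) ≤ ℓ ^ (1 / (e : ℝ)) := by rw [hT]; exact Nat.floor_le (by positivity)
  have hT2 : ℓ ^ (1 / (e : ℝ)) - 1 ≤ T := by
    have := Nat.lt_floor_add_one (ℓ ^ (1 / (e : ℝ)))
    rw [← hT] at this
    linarith
  have hTj : T ≤ j := by
    rw [hj]
    apply Nat.le_floor
    rw [← hℓ]
    linarith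
  have hT2' : 2 ≤ T := by
    have : (2 : ℝ) ≤ T := h4.1.trans hT2
    exact_mod_cast this
  have hlT : 1 / (2 * e : ℝ) * Real.log ℓ ≤ Real.log T := by
    have := Real.log_le_log (by positivity) (h4.2.trans hT2)
    rwa [Real.log_rpow hℓ0] at this
  have hlT0 : 0 < Real.log (T : ℝ) := lt_of_lt_of_le (by positivity) hlT
  have hVT : V T ≤ B * (2 * e) / Real.log ℓ := by
    refine (hB T hT2').trans ?_
    rw [div_le_div_iff₀ hlT0 (by linarith)]
    have h7 : Real.log ℓ ≤ 2 * e * Real.log T := by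
      have := mul_le_mul_of_nonneg_left hlT (show (0 : ℝ) ≤ 2 * e by positivity)
      have h8 : 2 * (e : ℝ) * (1 / (2 * e) * Real.log ℓ) = Real.log ℓ := by field_simp
      linarith
    calc B * Real.log ℓ ≤ B * (2 * e * Real.log T) := mul_le_mul_of_nonneg_left h7 hB0.le
      _ = B * (2 * e) * Real.log T := by ring
  have hTe : (T : ℝ) ^ e ≤ ℓ := by
    calc (T : ℝ) ^ e ≤ (ℓ ^ (1 / (e : ℝ))) ^ e := pow_le_pow_left₀ (Nat.cast_nonneg _) hT1 e
      _ = ℓ := by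
          rw [← Real.rpow_natCast, ← Real.rpow_mul hℓ0.le]
          have : 1 / (e : ℝ) * e = 1 := by field_simp
          rw [this, Real.rpow_one]
  have hy0 : (0 : ℝ) ≤ y := Nat.cast_nonneg y
  have hVT0 := V_pos T
  have hRC : (RC j x y : ℝ) ≤ (3 * B * e + 1) * (y / Real.log ℓ) := by
    have b1 := (abs_le.1 (hK T x y (by omega))).2
    have b2 : (RC T x y : ℝ) = (((Ioc x (x + y)).filter (Rg T)).card : ℝ) := rfl
    have b3 : (RC j x y : ℝ) ≤ RC T x y := by exact_mod_cast RC_anti hTj x y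
    have b4 : (1 / 2 : ℝ) ^ C0 ≤ 1 / 2 := by
      calc (1 / 2 : ℝ) ^ C0 ≤ (1 / 2 : ℝ) ^ 1 := pow_le_pow_of_le_one (by norm_num) (by norm_num) hC0
        _ = 1 / 2 := pow_one _
    have b5 : (1 / 2 : ℝ) ^ C0 * (V T * y) ≤ 1 / 2 * (V T * y) := mul_le_mul_of_nonneg_right b4 (by positivity)
    have b6 : V T * y ≤ B * (2 * e) / Real.log ℓ * y := mul_le_mul_of_nonneg_right hVT hy0
    have b7 : K * (T : ℝ) ^ e ≤ y / Real.log ℓ := by
      rw [le_div_iff₀ (by linarith)]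
      have c1 : K * (T : ℝ) ^ e * Real.log ℓ ≤ K * ℓ * Real.log ℓ := by
        apply mul_le_mul_of_nonneg_right _ (by linarith)
        exact mul_le_mul_of_nonneg_left hTe hK0.le
      have c2 : ℓ ^ t = ℓ ^ (t - 1) * ℓ := by
        rw [← Real.rpow_add_one hℓ0.ne']
        congr 1
        ring
      have c3 : 2 * K * Real.log ℓ * ℓ ≤ ℓ ^ (t - 1) * ℓ := mul_le_mul_of_nonneg_right h6 hℓ0.le
      rw [← c2] at c3
      nlinarith
    have b8 : (3 * B * e + 1) * (y / Real.log ℓ) = 3 / 2 * (B * (2 * e) / Real.log ℓ * y) + y / Real.log ℓ := by ring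
    rw [b8]
    rw [← b2] at b1
    linarith
  refine h1'.trans ?_
  calc (1 + 1) * (VV j / ℓ) * (RC j x y : ℝ) ≤ (1 + 1) * (4 * Real.log ℓ / ℓ) * ((3 * B * e + 1) * (y / Real.log ℓ)) := by
        apply mul_le_mul _ hRC (Nat.cast_nonneg _) (by positivity)
        apply mul_le_mul_of_nonneg_left _ (by norm_num)
        exact div_le_div_of_nonneg_right h2.2 hℓ0.le
    _ = 8 * (3 * B * e + 1) * (y / ℓ) := by
        have : Real.log ℓ ≠ 0 := by linarith
        field_simp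
        ring

theorem mean_lowt {A : ℝ} (hA : 0 < A) (t : ℝ) (ht : 2 < t) (ht3 : t ≤ 3) : ∃ c : ℝ, 0 < c ∧ ∀ᶠ x : ℕ in atTop,
    c * (⌊Real.log x ^ t⌋₊ / Real.log x) ≤ ∑ n ∈ Ioc x (x + ⌊Real.log x ^ t⌋₊), pr A n := by
  classical
  obtain ⟨ζ, hζ⟩ : ∃ ζ : ℝ, ζ = (1 / t + 1 / 2) / 2 := ⟨_, rfl⟩
  have ht0 : 0 < t := by linarith
  have h1t : 1 / t < 1 / 2 := one_div_lt_one_div_of_lt (by norm_num) ht
  have h1t0 : 0 < 1 / t := by positivity
  have hζ1 : 1 / 4 ≤ ζ := by rw [hζ]; linarith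
  have hζ2 : ζ < 1 / 2 := by rw [hζ]; linarith
  have hζt : 1 < t * ζ := by
    have h2 : t * ζ = (1 + t / 2) / 2 := by rw [hζ]; field_simp
    rw [h2]
    linarith
  obtain ⟨c, hc, Y0, hlin⟩ := Pool.Agent.Y835.SB.lin_low ζ hζ1 hζ2
  refine ⟨c / (4 * t), by positivity, ?_⟩
  have hY : Tendsto (fun N : ℕ => ⌊Real.log (N : ℝ) ^ t⌋₊) atTop atTop :=
    tendsto_nat_floor_atTop.comp ((tendsto_rpow_atTop ht0).comp tlog)
  -- sizes
  have hs1 : ∀ᶠ N : ℕ in atTop, 2 * A * Real.log N < (Real.log N ^ t - 1) ^ ζ := by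
    have h2 : ∀ᶠ u : ℝ in atTop, 4 * A * u < u ^ (t * ζ) := by
      have h3 := (tendsto_rpow_atTop (show 0 < t * ζ - 1 by linarith)).eventually_gt_atTop (4 * A)
      filter_upwards [h3, eventually_gt_atTop (0 : ℝ)] with u hu hu0
      have h4 : u ^ (t * ζ) = u ^ (t * ζ - 1) * u := by
        rw [← Real.rpow_add_one hu0.ne']
        congr 1
        ring
      rw [h4]
      exact mul_lt_mul_of_pos_right hu hu0
    filter_upwards [tlog.eventually h2, tlog.eventually_ge_atTop 2] with N h3 h4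
    have h5 : (Real.log N ^ t) / 2 ≤ Real.log N ^ t - 1 := by
      have h6 : (2 : ℝ) ≤ Real.log N ^ t := by
        calc (2 : ℝ) ≤ Real.log N := h4
          _ = Real.log N ^ (1 : ℝ) := (Real.rpow_one _).symm
          _ ≤ Real.log N ^ t := Real.rpow_le_rpow_of_exponent_le (by linarith) (by linarith)
      linarith
    have h6 : ((Real.log N ^ t) / 2) ^ ζ ≤ (Real.log N ^ t - 1) ^ ζ :=
      Real.rpow_le_rpow (by positivity) h5 (by linarith)
    refine lt_of_lt_of_le ?_ h6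
    rw [Real.div_rpow (by positivity) (by norm_num), ← Real.rpow_mul (by linarith), lt_div_iff₀ (by positivity)]
    have h7 : (2 : ℝ) ^ ζ ≤ 2 := by
      calc (2 : ℝ) ^ ζ ≤ (2 : ℝ) ^ (1 : ℝ) := Real.rpow_le_rpow_of_exponent_le (by norm_num) (by linarith)
        _ = 2 := Real.rpow_one _
    have h8 : 0 ≤ 2 * A * Real.log N := by
      have : 0 ≤ Real.log (N : ℝ) := by linarith
      positivity
    nlinarith
  filter_upwards [hs1, hY.eventually_ge_atTop (max Y0 4), tlog.eventually_ge_atTop 3, tlog.eventually_ge_atTop (1 / A),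
    log_pow_small 6 1 1 one_pos one_pos, mean_ge hA (1 / 2) (by norm_num) (by norm_num), VV_lv hA] with x e1 e2 e3 e4 e6 e7 e8
  obtain ⟨Y, hYd⟩ : ∃ Y, Y = ⌊Real.log (x : ℝ) ^ t⌋₊ := ⟨_, rfl⟩
  rw [← hYd] at e2 ⊢
  obtain ⟨ℓ, hℓ⟩ : ∃ ℓ : ℝ, ℓ = Real.log x := ⟨_, rfl⟩
  rw [← hℓ] at e1 e3 e4 e6 e8 hYd ⊢
  have hl0 : 0 < ℓ := by linarith
  have hlt0 : 0 < ℓ ^ t := Real.rpow_pos_of_pos hl0 _
  have hYle : (Y : ℝ) ≤ ℓ ^ t := by rw [hYd]; exact Nat.floor_le hlt0.le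
  have hYge : ℓ ^ t - 1 < Y := by
    rw [hYd]
    have := Nat.lt_floor_add_one (ℓ ^ t)
    linarith
  have hY4 : (4 : ℝ) ≤ Y := by exact_mod_cast (le_max_right Y0 4).trans e2
  have hY2 : Y ^ 2 ≤ x := by
    have h1 : (Y : ℝ) ^ 2 ≤ x := by
      rw [one_mul, Real.rpow_one] at e6
      refine le_trans ?_ e6
      calc (Y : ℝ) ^ 2 ≤ (ℓ ^ t) ^ 2 := pow_le_pow_left₀ (by linarith) hYle 2
        _ ≤ (ℓ ^ (3 : ℝ)) ^ 2 := by
            apply pow_le_pow_left₀ hlt0.le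
            exact Real.rpow_le_rpow_of_exponent_le (by linarith) ht3
        _ = ℓ ^ 6 := by
            rw [show (3 : ℝ) = ((3 : ℕ) : ℝ) by norm_num, Real.rpow_natCast, ← pow_mul]
    exact_mod_cast h1
  obtain ⟨j, hj⟩ : ∃ j, j = lv A x := ⟨_, rfl⟩
  have e7' := e7 Y hY2
  rw [← hℓ, ← hj] at e7'
  rw [← hj] at e8
  have hjA : (j : ℝ) ≤ A * ℓ := by rw [hj, hℓ]; exact Nat.floor_le (by rw [← hℓ]; positivity)
  have hRC : c * (Y / Real.log Y) ≤ (RC (j + 1) x Y : ℝ) := by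
    refine (hlin Y ((le_max_left _ _).trans e2) x).trans ?_
    have h2 : ((Icc 1 Y).filter (fun h => ∀ p : ℕ, p.Prime → (p : ℝ) < (Y : ℝ) ^ ζ → ¬ p ∣ x + h)).card ≤ RC (j + 1) x Y := by
      unfold RC
      rw [← card_image_of_injective _ (f := fun h => x + h) (fun a b h => Nat.add_left_cancel h)]
      apply card_le_card
      intro n hn
      rw [mem_image] at hn
      obtain ⟨h, hh, rfl⟩ := hn
      rw [mem_filter, mem_Icc] at hh
      rw [mem_filter, mem_Ioc]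
      refine ⟨by omega, fun p hp hpp => hh.2 p hpp ?_⟩
      have h3 : (p : ℝ) ≤ j + 1 := by exact_mod_cast hp
      have h4 : 1 ≤ A * ℓ := by
        rw [div_le_iff₀ hA] at e4
        linarith
      calc (p : ℝ) ≤ 2 * A * ℓ := by linarith
        _ < (ℓ ^ t - 1) ^ ζ := e1
        _ ≤ (Y : ℝ) ^ ζ := by
            apply Real.rpow_le_rpow _ hYge.le (by linarith)
            have : (1 : ℝ) ≤ ℓ ^ t := Real.one_le_rpow (by linarith) ht0.le
            linarith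
    exact_mod_cast h2
  have hlY : 0 < Real.log (Y : ℝ) := Real.log_pos (by linarith)
  have hlY' : Real.log (Y : ℝ) ≤ t * Real.log ℓ := by
    calc Real.log (Y : ℝ) ≤ Real.log (ℓ ^ t) := Real.log_le_log (by linarith) hYle
      _ = t * Real.log ℓ := Real.log_rpow hl0 _
  have hl2 : 1 ≤ Real.log ℓ := by
    rw [Real.le_log_iff_exp_le hl0]
    have := Real.exp_one_lt_d9
    linarith
  refine le_trans ?_ e7'
  calc c / (4 * t) * (Y / ℓ) = (1 - 1 / 2) * ((1 / 2 * Real.log ℓ) / ℓ) * (c * (Y / (t * Real.log ℓ))) := by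
        have : Real.log ℓ ≠ 0 := by linarith
        field_simp
        ring
    _ ≤ (1 - 1 / 2) * (VV j / ℓ) * (RC (j + 1) x Y : ℝ) := by
        apply mul_le_mul
        · apply mul_le_mul_of_nonneg_left _ (by norm_num)
          exact div_le_div_of_nonneg_right e8.1 hl0.le
        · refine le_trans ?_ hRC
          apply mul_le_mul_of_nonneg_left _ hc.le
          exact div_le_div_of_nonneg_left (by linarith) hlY hlY'
        · positivity
        · have : 0 ≤ VV j := by linarith [one_le_VV j]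
          positivity

variable {Ω : Type*} [MeasurableSpace Ω] {μ : Measure Ω} [IsProbabilityMeasure μ] {S : ℕ → Set Ω}

/-- concentration for one window at each place -/
theorem conc_seq {A : ℝ} (hA : 0 < A) (hm : ∀ n, MeasurableSet (S n)) (hi : iIndepSet S μ)
    (hp : ∀ n, μ.real (S n) = pr A n) (t : ℝ) (ht : 2 < t) (X Y : ℕ → ℕ)
    (hX : ∀ᶠ N : ℕ in atTop, N ≤ X N ∧ X N ≤ 3 * N) (hY : ∀ᶠ N : ℕ in atTop, Real.log N ^ t ≤ 2 * Y N ∧ Y N ^ 2 ≤ N)
    (δ : ℝ) (hδ : 0 < δ) :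
    ∀ᵐ ω ∂μ, ∀ᶠ N : ℕ in atTop,
      |cnt (Ioc (X N) (X N + Y N)) S ω - ∑ n ∈ Ioc (X N) (X N + Y N), pr A n| ≤ δ * (Y N / Real.log N) := by
  classical
  obtain ⟨C, hC, hmean⟩ := mean_up hA ((t + 1) / 2) (by linarith)
  obtain ⟨x₀, hx₀⟩ := eventually_atTop.1 hmean
  obtain ⟨Bd, hBd⟩ : ∃ Bd : ℕ → Set Ω, Bd = fun N =>
      {ω | δ * (Y N / Real.log N) ≤ |cnt (Ioc (X N) (X N + Y N)) S ω - ∑ n ∈ Ioc (X N) (X N + Y N), μ.real (S n)|} := ⟨_, rfl⟩
  have g1 : ∀ᶠ u : ℝ in atTop, (u + 2) ^ ((t + 1) / 2) ≤ u ^ t := by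
    have h3 := (tendsto_rpow_atTop (show (0 : ℝ) < (t - 1) / 2 by linarith)).eventually_ge_atTop ((2 : ℝ) ^ ((t + 1) / 2))
    filter_upwards [h3, eventually_ge_atTop 2] with u hu hu2
    calc (u + 2) ^ ((t + 1) / 2) ≤ (2 * u) ^ ((t + 1) / 2) := Real.rpow_le_rpow (by linarith) (by linarith) (by linarith)
      _ = (2 : ℝ) ^ ((t + 1) / 2) * u ^ ((t + 1) / 2) := Real.mul_rpow (by norm_num) (by linarith)
      _ ≤ u ^ ((t - 1) / 2) * u ^ ((t + 1) / 2) := mul_le_mul_of_nonneg_right hu (by positivity)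
      _ = u ^ t := by
          rw [← Real.rpow_add (by linarith)]
          congr 1
          ring
  have g2 : ∀ᶠ u : ℝ in atTop, 8 * (2 * C + δ) / δ ^ 2 * (2 * u + 1) * u ≤ u ^ t := by
    have h3 := (tendsto_rpow_atTop (show (0 : ℝ) < t - 2 by linarith)).eventually_ge_atTop (8 * (2 * C + δ) / δ ^ 2 * 3)
    filter_upwards [h3, eventually_ge_atTop 1] with u hu hu2
    have h4 : u ^ t = u ^ (t - 2) * u ^ 2 := by
      rw [← Real.rpow_natCast, ← Real.rpow_add (by linarith)]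
      congr 1
      norm_num
    rw [h4]
    have h5 : 8 * (2 * C + δ) / δ ^ 2 * (2 * u + 1) * u ≤ 8 * (2 * C + δ) / δ ^ 2 * 3 * u ^ 2 := by
      have h6 : (2 * u + 1) * u ≤ 3 * u ^ 2 := by nlinarith
      have h7 : 0 < 8 * (2 * C + δ) / δ ^ 2 := by positivity
      nlinarith
    exact h5.trans (mul_le_mul_of_nonneg_right hu (by positivity))
  have hprob : ∀ᶠ N : ℕ in atTop, μ.real (Bd N) ≤ 1 / (N : ℝ) ^ 2 := by
    filter_upwards [hX, hY, tlog.eventually g1, tlog.eventually g2, eventually_ge_atTop (max x₀ 3), tlog.eventually_ge_atTop 1]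
      with N h1 h2 h3 h4 h5 h6
    have hN3 : 3 ≤ N := (le_max_right _ _).trans h5
    have hN0 : (0 : ℝ) < N := by exact_mod_cast (by omega : 0 < N)
    obtain ⟨ℓ, hℓ⟩ : ∃ ℓ : ℝ, ℓ = Real.log N := ⟨_, rfl⟩
    rw [← hℓ] at h2 h3 h4 h6
    have hXl : ℓ ≤ Real.log (X N) := by rw [hℓ]; exact Real.log_le_log hN0 (by exact_mod_cast h1.1)
    have hXu : Real.log (X N) ≤ ℓ + 2 := by
      have b1 : (X N : ℝ) ≤ 3 * N := by exact_mod_cast h1.2
      have b2 := Real.log_le_log (by exact_mod_cast (by omega : 0 < X N)) b1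
      rw [Real.log_mul (by norm_num) hN0.ne', ← hℓ] at b2
      have b3 := Real.log_le_sub_one_of_pos (show (0 : ℝ) < 3 by norm_num)
      linarith
    have hY0 : 0 < (Y N : ℝ) := by
      have : (1 : ℝ) ≤ ℓ ^ t := Real.one_le_rpow h6 (by linarith)
      linarith [h2.1]
    have hmean' : ∑ n ∈ Ioc (X N) (X N + Y N), pr A n ≤ C * (Y N / Real.log (X N)) := by
      apply hx₀ (X N) (by have := le_max_left x₀ 3; omega)
      · refine le_trans ?_ h2.1
        refine le_trans ?_ h3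
        exact Real.rpow_le_rpow (by linarith) hXu (by linarith)
      · exact h2.2.trans h1.1
    have hmean2 : ∑ n ∈ Ioc (X N) (X N + Y N), μ.real (S n) ≤ (2 * C + δ) * (Y N / ℓ) := by
      have b1 : ∑ n ∈ Ioc (X N) (X N + Y N), μ.real (S n) = ∑ n ∈ Ioc (X N) (X N + Y N), pr A n := sum_congr rfl fun n _ => hp n
      rw [b1]
      refine hmean'.trans ?_
      have b2 : (Y N : ℝ) / Real.log (X N) ≤ Y N / ℓ := div_le_div_of_nonneg_left hY0.le (by linarith) hXl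
      have b3 : 0 < (Y N : ℝ) / ℓ := by positivity
      nlinarith
    have hM0 : 0 < (2 * C + δ) * (Y N / ℓ) := by positivity
    have hch := chernoff S hm hi (Ioc (X N) (X N + Y N)) ((2 * C + δ) * (Y N / ℓ)) (δ * (Y N / ℓ)) hmean2 (by positivity) (by
      apply mul_le_mul_of_nonneg_right _ (by positivity)
      linarith) hM0
    rw [hBd]
    show μ.real {ω | δ * (Y N / Real.log N) ≤ _} ≤ _
    rw [← hℓ]
    refine hch.trans ?_
    have b1 : (δ * (Y N / ℓ)) ^ 2 / (4 * ((2 * C + δ) * (Y N / ℓ))) = δ ^ 2 / (4 * (2 * C + δ)) * (Y N / ℓ) := by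
      field_simp
    rw [b1]
    have b2 : 2 * ℓ + 1 ≤ δ ^ 2 / (4 * (2 * C + δ)) * (Y N / ℓ) := by
      have b3 : ℓ ^ t ≤ 2 * Y N := h2.1
      have b4 : 8 * (2 * C + δ) / δ ^ 2 * (2 * ℓ + 1) * ℓ ≤ 2 * Y N := h4.trans b3
      have b5 : δ ^ 2 / (4 * (2 * C + δ)) * (Y N / ℓ) = δ ^ 2 / (8 * (2 * C + δ)) / ℓ * (2 * Y N) := by
        field_simp
        norm_num
      rw [b5]
      calc 2 * ℓ + 1 = δ ^ 2 / (8 * (2 * C + δ)) / ℓ * (8 * (2 * C + δ) / δ ^ 2 * (2 * ℓ + 1) * ℓ) := by field_simp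
        _ ≤ δ ^ 2 / (8 * (2 * C + δ)) / ℓ * (2 * Y N) := mul_le_mul_of_nonneg_left b4 (by positivity)
    calc 2 * Real.exp (-(δ ^ 2 / (4 * (2 * C + δ)) * (Y N / ℓ))) ≤ 2 * Real.exp (-(2 * ℓ + 1)) := by
          apply mul_le_mul_of_nonneg_left _ (by norm_num)
          exact Real.exp_le_exp.2 (by linarith)
      _ = 2 * Real.exp (-1) * Real.exp (-(2 * ℓ)) := by
          rw [mul_assoc, ← Real.exp_add]
          congr 2
          ring
      _ ≤ 1 * Real.exp (-(2 * ℓ)) := by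
          apply mul_le_mul_of_nonneg_right _ (Real.exp_pos _).le
          have c1 := Real.exp_one_gt_d9
          rw [Real.exp_neg]
          have c2 : (Real.exp 1)⁻¹ ≤ 1 / 2 := by
            rw [inv_le_comm₀ (Real.exp_pos 1) (by norm_num)]
            linarith
          linarith
      _ = 1 / (N : ℝ) ^ 2 := by
          rw [one_mul, Real.exp_neg, one_div, mul_comm, Real.exp_mul, hℓ, Real.exp_log hN0]
          norm_num
  obtain ⟨n₀, hn₀⟩ := eventually_atTop.1 hprob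
  have hsum : Summable (fun N : ℕ => 1 / (N : ℝ) ^ 2) := Real.summable_one_div_nat_pow.2 (by norm_num)
  have h2 := bc (μ := μ) Bd n₀ _ hsum (fun n hn => hn₀ n hn)
  filter_upwards [h2] with ω hω
  filter_upwards [hω] with N hN
  by_contra h5
  push Not at h5
  apply hN
  rw [hBd]
  show δ * (Y N / Real.log N) ≤ |cnt (Ioc (X N) (X N + Y N)) S ω - ∑ n ∈ Ioc (X N) (X N + Y N), μ.real (S n)|
  have h6 : ∑ n ∈ Ioc (X N) (X N + Y N), μ.real (S n) = ∑ n ∈ Ioc (X N) (X N + Y N), pr A n := sum_congr rfl fun n _ => hp n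
  rw [h6]
  exact h5.le

end Pool.Agent.T2H62.MM
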