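import Pool.Agent.T2H62.MM.B

set_option autoImplicit false

/-! # Splitting of windows, uniform concentration, oscillation of the Buchstab function above its limit -/

namespace Pool.Agent.T2H62.MM

open Finset Filter Topology MeasureTheory ProbabilityTheory
open Pool.Agent.T2H53.GW
open Pool.Agent.T2H62.MD
open Pool.Agent.T2H62.MS (log_ge_one pr_ge_block)
open Pool.Agent.H305R2 (VV VV_tendsto)
open Pool.Agent.T2H32.BF (V V_pos V_anti mertens)
open Pool.Agent.T2H32.GM (Rg fl_main V_le om om_cont om_int om_rec2 om_small dev dev_int)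

theorem split_low (f : ℕ → ℝ) (hf : ∀ n, 0 ≤ f n) (c : ℝ) (hc : 0 ≤ c) (M z : ℕ) : ∀ y x : ℕ, x + y ≤ z →
    (∀ x' : ℕ, x ≤ x' → x' ≤ z → ∃ L : ℕ, 1 ≤ L ∧ L ≤ M ∧ c * L ≤ ∑ n ∈ Ioc x' (x' + L), f n) →
    c * ((y : ℝ) - M) ≤ ∑ n ∈ Ioc x (x + y), f n := by
  intro y
  induction y using Nat.strong_induction_on with
  | _ y ih =>
    intro x hx h
    rcases lt_or_ge y M with h1 | h1
    · have h2 : (y : ℝ) - M ≤ 0 := by
        have : (y : ℝ) ≤ M := by exact_mod_cast h1.le
        linarith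
      exact (mul_nonpos_of_nonneg_of_nonpos hc h2).trans (sum_nonneg fun n _ => hf n)
    · obtain ⟨L, hL1, hLM, hL⟩ := h x le_rfl (by omega)
      have h3 := ih (y - L) (by omega) (x + L) (by omega) (fun x' h4 h5 => h x' (by omega) h5)
      have e1 : x + L + (y - L) = x + y := by omega
      rw [e1] at h3
      have h4 : ∑ n ∈ Ioc x (x + y), f n = ∑ n ∈ Ioc x (x + L), f n + ∑ n ∈ Ioc (x + L) (x + y), f n :=
        (sum_Ioc_consecutive f (by omega) (by omega)).symm
      rw [h4]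
      have e2 : ((y - L : ℕ) : ℝ) = (y : ℝ) - L := Nat.cast_sub (by omega)
      rw [e2] at h3
      linarith

theorem split_up (f : ℕ → ℝ) (hf : ∀ n, 0 ≤ f n) (c : ℝ) (hc : 0 ≤ c) (M z : ℕ) : ∀ y x : ℕ, x + y ≤ z →
    (∀ x' : ℕ, x ≤ x' → x' ≤ z → ∃ L : ℕ, 1 ≤ L ∧ L ≤ M ∧ ∑ n ∈ Ioc x' (x' + L), f n ≤ c * L) →
    ∑ n ∈ Ioc x (x + y), f n ≤ c * ((y : ℝ) + M) := by
  intro y
  induction y using Nat.strong_induction_on with
  | _ y ih =>
    intro x hx h
    obtain ⟨L, hL1, hLM, hL⟩ := h x le_rfl (by omega)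
    rcases le_or_gt y L with h1 | h1
    · have h2 : ∑ n ∈ Ioc x (x + y), f n ≤ ∑ n ∈ Ioc x (x + L), f n :=
        sum_le_sum_of_subset_of_nonneg (Ioc_subset_Ioc_right (by omega)) fun n _ _ => hf n
      have h3 : (L : ℝ) ≤ M := by exact_mod_cast hLM
      have h4 : c * (L : ℝ) ≤ c * M := mul_le_mul_of_nonneg_left h3 hc
      have h5 : 0 ≤ c * (y : ℝ) := by positivity
      linarith
    · have h3 := ih (y - L) (by omega) (x + L) (by omega) (fun x' h4 h5 => h x' (by omega) h5)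
      have e1 : x + L + (y - L) = x + y := by omega
      rw [e1] at h3
      have h4 : ∑ n ∈ Ioc x (x + y), f n = ∑ n ∈ Ioc x (x + L), f n + ∑ n ∈ Ioc (x + L) (x + y), f n :=
        (sum_Ioc_consecutive f (by omega) (by omega)).symm
      rw [h4]
      have e2 : ((y - L : ℕ) : ℝ) = (y : ℝ) - L := Nat.cast_sub (by omega)
      rw [e2] at h3
      linarith

variable {Ω : Type*} [MeasurableSpace Ω] {μ : Measure Ω} [IsProbabilityMeasure μ] {S : ℕ → Set Ω}

/-- concentration for all the windows at each place -/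
theorem conc_unif {A : ℝ} (hA : 0 < A) (hm : ∀ n, MeasurableSet (S n)) (hi : iIndepSet S μ)
    (hp : ∀ n, μ.real (S n) = pr A n) (t : ℝ) (ht : 2 < t) (δ : ℝ) (hδ : 0 < δ) :
    ∀ᵐ ω ∂μ, ∀ᶠ x : ℕ in atTop, ∀ y : ℕ, Real.log x ^ t ≤ 2 * y → y ^ 2 ≤ x →
      |cnt (Ioc x (x + y)) S ω - ∑ n ∈ Ioc x (x + y), pr A n| ≤ δ * (y / Real.log x) := by
  classical
  obtain ⟨C, hC, hmean⟩ := mean_up hA t (by linarith)
  obtain ⟨x₀, hx₀⟩ := eventually_atTop.1 hmean
  obtain ⟨E, hE⟩ : ∃ E : ℕ → ℕ → Set Ω, E = fun (N y : ℕ) =>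
      {ω | δ * ((y : ℝ) / Real.log (N : ℝ)) ≤ |cnt (Ioc N (N + y)) S ω - ∑ n ∈ Ioc N (N + y), μ.real (S n)|} := ⟨_, rfl⟩
  obtain ⟨F, hF⟩ : ∃ F : ℕ → Finset ℕ, F = fun N => (range (N + 1)).filter (fun y : ℕ => Real.log N ^ t ≤ 2 * y ∧ y ^ 2 ≤ N) := ⟨_, rfl⟩
  obtain ⟨Bd, hBd⟩ : ∃ Bd : ℕ → Set Ω, Bd = fun N => ⋃ y ∈ F N, E N y := ⟨_, rfl⟩
  have g2 : ∀ᶠ u : ℝ in atTop, 8 * (2 * C + δ) / δ ^ 2 * (3 * u + 2) * u ≤ u ^ t := by
    have h3 := (tendsto_rpow_atTop (show (0 : ℝ) < t - 2 by linarith)).eventually_ge_atTop (8 * (2 * C + δ) / δ ^ 2 * 5)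
    filter_upwards [h3, eventually_ge_atTop 1] with u hu hu2
    have h4 : u ^ t = u ^ (t - 2) * u ^ 2 := by
      rw [← Real.rpow_natCast, ← Real.rpow_add (by linarith)]
      congr 1
      norm_num
    rw [h4]
    have h5 : 8 * (2 * C + δ) / δ ^ 2 * (3 * u + 2) * u ≤ 8 * (2 * C + δ) / δ ^ 2 * 5 * u ^ 2 := by
      have h6 : (3 * u + 2) * u ≤ 5 * u ^ 2 := by nlinarith
      have h7 : 0 < 8 * (2 * C + δ) / δ ^ 2 := by positivity
      nlinarith
    exact h5.trans (mul_le_mul_of_nonneg_right hu (by positivity))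
  have hprob : ∀ᶠ N : ℕ in atTop, μ.real (Bd N) ≤ 1 / (N : ℝ) ^ 2 := by
    filter_upwards [tlog.eventually g2, eventually_ge_atTop (max x₀ 3), tlog.eventually_ge_atTop 1]
      with N h4 h5 h6
    have hN3 : 3 ≤ N := (le_max_right _ _).trans h5
    have hN0 : (0 : ℝ) < N := by exact_mod_cast (by omega : 0 < N)
    have hN1 : (3 : ℝ) ≤ N := by exact_mod_cast hN3
    obtain ⟨ℓ, hℓ⟩ : ∃ ℓ : ℝ, ℓ = Real.log N := ⟨_, rfl⟩
    have hone : ∀ y ∈ F N, μ.real (E N y) ≤ 1 / (2 * (N : ℝ) ^ 3) := by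
      intro y hy
      rw [hF, mem_filter, ← hℓ] at hy
      obtain ⟨-, hy1, hy2⟩ := hy
      rw [← hℓ] at h4 h6
      have hY0 : 0 < (y : ℝ) := by
        have : (1 : ℝ) ≤ ℓ ^ t := Real.one_le_rpow h6 (by linarith)
        linarith
      have hℓ0 : 0 < ℓ := by linarith
      have hmean' : ∑ n ∈ Ioc N (N + y), pr A n ≤ C * (y / Real.log N) := by
        apply hx₀ N (by have := le_max_left x₀ 3; omega) _ _ hy2
        rw [← hℓ]
        exact hy1
      rw [← hℓ] at hmean'
      have hmean2 : ∑ n ∈ Ioc N (N + y), μ.real (S n) ≤ (2 * C + δ) * (y / ℓ) := by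
        have b1 : ∑ n ∈ Ioc N (N + y), μ.real (S n) = ∑ n ∈ Ioc N (N + y), pr A n := sum_congr rfl fun n _ => hp n
        rw [b1]
        refine hmean'.trans ?_
        have b3 : (0 : ℝ) < (y : ℝ) / ℓ := by positivity
        nlinarith
      have hM0 : 0 < (2 * C + δ) * ((y : ℝ) / ℓ) := by positivity
      have hch := chernoff S hm hi (Ioc N (N + y)) ((2 * C + δ) * (y / ℓ)) (δ * (y / ℓ)) hmean2 (by positivity) (by
        apply mul_le_mul_of_nonneg_right _ (by positivity)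
        linarith) hM0
      rw [hE]
      show μ.real {ω | δ * (y / Real.log N) ≤ _} ≤ _
      rw [← hℓ]
      refine hch.trans ?_
      have b1 : (δ * ((y : ℝ) / ℓ)) ^ 2 / (4 * ((2 * C + δ) * (y / ℓ))) = δ ^ 2 / (4 * (2 * C + δ)) * (y / ℓ) := by
        field_simp
      rw [b1]
      have b2 : 3 * ℓ + 2 ≤ δ ^ 2 / (4 * (2 * C + δ)) * (y / ℓ) := by
        have b4 : 8 * (2 * C + δ) / δ ^ 2 * (3 * ℓ + 2) * ℓ ≤ 2 * y := h4.trans hy1
        have b5 : δ ^ 2 / (4 * (2 * C + δ)) * (y / ℓ) = δ ^ 2 / (8 * (2 * C + δ)) / ℓ * (2 * y) := by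
          field_simp
          norm_num
        rw [b5]
        calc 3 * ℓ + 2 = δ ^ 2 / (8 * (2 * C + δ)) / ℓ * (8 * (2 * C + δ) / δ ^ 2 * (3 * ℓ + 2) * ℓ) := by field_simp
          _ ≤ δ ^ 2 / (8 * (2 * C + δ)) / ℓ * (2 * y) := mul_le_mul_of_nonneg_left b4 (by positivity)
      calc 2 * Real.exp (-(δ ^ 2 / (4 * (2 * C + δ)) * (y / ℓ))) ≤ 2 * Real.exp (-(3 * ℓ + 2)) := by
            apply mul_le_mul_of_nonneg_left _ (by norm_num)
            exact Real.exp_le_exp.2 (by linarith)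
        _ = 2 * Real.exp (-2) * Real.exp (-(3 * ℓ)) := by
            rw [mul_assoc, ← Real.exp_add]
            congr 2
            ring
        _ ≤ 1 / 2 * Real.exp (-(3 * ℓ)) := by
            apply mul_le_mul_of_nonneg_right _ (Real.exp_pos _).le
            have c1 := Real.exp_one_gt_d9
            have c3 : Real.exp 2 = Real.exp 1 * Real.exp 1 := by
              rw [← Real.exp_add]
              norm_num
            rw [Real.exp_neg]
            have c2 : (Real.exp 2)⁻¹ ≤ 1 / 4 := by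
              rw [inv_le_comm₀ (Real.exp_pos 2) (by norm_num), c3]
              nlinarith
            linarith
        _ = 1 / (2 * (N : ℝ) ^ 3) := by
            have c4 : Real.exp (3 * ℓ) = (N : ℝ) ^ 3 := by
              rw [mul_comm, Real.exp_mul, hℓ, Real.exp_log hN0]
              norm_num
            rw [Real.exp_neg, c4]
            field_simp
    have hcard : ((F N).card : ℝ) ≤ 2 * N := by
      have b1 : (F N).card ≤ N + 1 := by
        rw [hF]
        exact (card_filter_le _ _).trans (by rw [card_range])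
      have b2 : ((F N).card : ℝ) ≤ N + 1 := by exact_mod_cast b1
      linarith
    rw [hBd]
    show μ.real (⋃ y ∈ F N, E N y) ≤ _
    refine (measureReal_biUnion_finset_le _ _).trans ((sum_le_sum hone).trans ?_)
    rw [sum_const, nsmul_eq_mul]
    calc ((F N).card : ℝ) * (1 / (2 * (N : ℝ) ^ 3)) ≤ 2 * N * (1 / (2 * (N : ℝ) ^ 3)) :=
          mul_le_mul_of_nonneg_right hcard (by positivity)
      _ = 1 / (N : ℝ) ^ 2 := by field_simp
  obtain ⟨n₀, hn₀⟩ := eventually_atTop.1 hprob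
  have hsum : Summable (fun N : ℕ => 1 / (N : ℝ) ^ 2) := Real.summable_one_div_nat_pow.2 (by norm_num)
  have h2 := bc (μ := μ) Bd n₀ _ hsum (fun n hn => hn₀ n hn)
  filter_upwards [h2] with ω hω
  filter_upwards [hω] with N hN y hy1 hy2
  by_contra h5
  push Not at h5
  apply hN
  rw [hBd]
  show ω ∈ ⋃ y ∈ F N, E N y
  rw [Set.mem_iUnion₂]
  refine ⟨y, ?_, ?_⟩
  · rw [hF, mem_filter, mem_range]
    refine ⟨?_, hy1, hy2⟩
    nlinarith
  · rw [hE]
    show δ * (y / Real.log N) ≤ |cnt (Ioc N (N + y)) S ω - ∑ n ∈ Ioc N (N + y), μ.real (S n)|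
    have h6 : ∑ n ∈ Ioc N (N + y), μ.real (S n) = ∑ n ∈ Ioc N (N + y), pr A n := sum_congr rfl fun n _ => hp n
    rw [h6]
    exact h5.le

section osc
variable (ℓ : ℝ)

theorem dev' (s s0 : ℝ) (h2 : 2 ≤ s0) (hs : s0 ≤ s) :
    s * (ℓ - om s) = s0 * (ℓ - om s0) + ∫ t in (s0 - 1)..(s - 1), (ℓ - om t) := by
  have h1 := dev ℓ s s0 h2 hs
  have h3 : ∫ t in (s0 - 1)..(s - 1), (ℓ - om t) = -∫ t in (s0 - 1)..(s - 1), (om t - ℓ) := by
    rw [← intervalIntegral.integral_neg]
    congr 1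
    ext t
    ring
  rw [h3]
  linarith

theorem dev_int' (a b : ℝ) : IntervalIntegrable (fun t => ℓ - om t) volume a b :=
  intervalIntegrable_const.sub (om_int a b)

/-- **Oscillation**: above the limit arbitrarily far out. -/
theorem osc_up (hlim : Tendsto om atTop (𝓝 ℓ)) (u : ℝ) : ∃ v, u ≤ v ∧ ℓ < om v := by
  by_contra hcon
  push Not at hcon
  have step1 : ∀ s, max u 1 + 1 ≤ s → ℓ - om s = 0 := by
    intro v1 hv1
    have hv1' : 2 ≤ v1 := by linarith [le_max_right u 1]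
    have hu1 : u ≤ v1 - 1 := by linarith [le_max_left u 1]
    have hnn : 0 ≤ ℓ - om v1 := sub_nonneg.2 (hcon v1 (by linarith))
    by_contra hne
    have hpos : 0 < ℓ - om v1 := lt_of_le_of_ne hnn (Ne.symm hne)
    have hp : ∀ s, v1 ≤ s → 0 < ℓ - om s := by
      intro s hs
      have h1 := dev' ℓ s v1 hv1' hs
      have h2 : 0 ≤ ∫ t in (v1 - 1)..(s - 1), (ℓ - om t) :=
        intervalIntegral.integral_nonneg (by linarith) fun t ht => sub_nonneg.2 (hcon t (by linarith [ht.1]))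
      have h3 : 0 < s * (ℓ - om s) := by
        rw [h1]
        have : 0 < v1 * (ℓ - om v1) := mul_pos (by linarith) hpos
        linarith
      exact (mul_pos_iff_of_pos_left (by linarith : 0 < s)).1 h3
    obtain ⟨t0, ht0, hmin⟩ := (isCompact_Icc (a := v1) (b := v1 + 1)).exists_isMinOn
      ⟨v1, by constructor <;> linarith⟩ (continuous_const.sub om_cont : Continuous fun t => ℓ - om t).continuousOn
    obtain ⟨m, hm⟩ : ∃ m, m = ℓ - om t0 := ⟨_, rfl⟩
    have hm0 : 0 < m := by rw [hm]; exact hp t0 ht0.1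
    have hind : ∀ j : ℕ, ∀ s, v1 ≤ s → s ≤ v1 + 1 + j → m ≤ ℓ - om s := by
      intro j
      induction j with
      | zero =>
        intro s hs1 hs2
        rw [hm]
        exact hmin (show s ∈ Set.Icc v1 (v1 + 1) from ⟨hs1, by push_cast at hs2; linarith⟩)
      | succ j ih =>
        intro s hs1 hs2
        rcases le_or_gt s (v1 + 1 + j) with h | h
        · exact ih s hs1 h
        · push_cast at hs2
          have hj : (0 : ℝ) ≤ j := Nat.cast_nonneg j
          have h1 := dev' ℓ s (v1 + 1 + j) (by linarith) h.le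
          have h2 : m ≤ ℓ - om (v1 + 1 + j) := ih _ (by linarith) le_rfl
          have h3 : (s - (v1 + 1 + j)) * m ≤ ∫ t in (v1 + 1 + j - 1)..(s - 1), (ℓ - om t) := by
            have h4 : ∫ t in (v1 + 1 + j - 1)..(s - 1), m ≤ ∫ t in (v1 + 1 + j - 1)..(s - 1), (ℓ - om t) := by
              refine intervalIntegral.integral_mono_on (by linarith) intervalIntegrable_const (dev_int' ℓ _ _) ?_
              intro t ht
              exact ih t (by linarith [ht.1]) (by linarith [ht.2])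
            rw [intervalIntegral.integral_const, smul_eq_mul] at h4
            linarith
          have hs0 : 0 < s := by linarith
          have h5 : s * m ≤ s * (ℓ - om s) := by
            rw [h1]
            have : (v1 + 1 + j) * m ≤ (v1 + 1 + j) * (ℓ - om (v1 + 1 + j)) :=
              mul_le_mul_of_nonneg_left h2 (by linarith)
            linarith
          exact le_of_mul_le_mul_left h5 hs0
    have hlim' : Tendsto (fun s => ℓ - om s) atTop (𝓝 0) := by
      have := hlim.const_sub ℓ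
      rwa [sub_self] at this
    obtain ⟨s, hs1, hs2⟩ := ((hlim'.eventually_lt_const hm0).and (eventually_ge_atTop v1)).exists
    obtain ⟨j, hj⟩ := exists_nat_ge s
    have := hind j s hs2 (by linarith)
    linarith
  -- going down
  have step2 : ∀ a : ℝ, 2 ≤ a → (∀ s, a ≤ s → ℓ - om s = 0) → ∀ s, a - 1 ≤ s → ℓ - om s = 0 := by
    intro a ha h s hs
    have h1 : ∀ x, a - 1 ≤ x → ∫ t in (a - 1)..x, (ℓ - om t) = 0 := by
      intro x hx
      have h2 := dev' ℓ (x + 1) a ha (by linarith)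
      rw [h a le_rfl, h (x + 1) (by linarith), mul_zero, mul_zero, zero_add] at h2
      have e : x + 1 - 1 = x := by ring
      rw [e] at h2
      exact h2.symm
    have hc : Continuous fun t => ℓ - om t := continuous_const.sub om_cont
    have h2 : HasDerivAt (fun x => ∫ t in (a - 1)..x, (ℓ - om t)) (ℓ - om s) s :=
      intervalIntegral.integral_hasDerivAt_right (dev_int' ℓ _ _) (hc.stronglyMeasurableAtFilter _ _) hc.continuousAt
    have h3 : HasDerivWithinAt (fun x => ∫ t in (a - 1)..x, (ℓ - om t)) (ℓ - om s) (Set.Ici s) s :=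
      h2.hasDerivWithinAt
    have h4 : HasDerivWithinAt (fun _ : ℝ => (0 : ℝ)) (ℓ - om s) (Set.Ici s) s :=
      h3.congr (fun x hx => (h1 x (hs.trans hx)).symm) (h1 s hs).symm
    exact (uniqueDiffWithinAt_Ici s).eq_deriv _ h4 (hasDerivWithinAt_const _ _ _)
  have step3 : ∀ j : ℕ, ∀ s : ℝ, max (max u 1 + 1 - j) 1 ≤ s → ℓ - om s = 0 := by
    intro j
    induction j with
    | zero =>
      intro s hs
      refine step1 s (le_trans ?_ hs)
      have : max u 1 + 1 - ((0 : ℕ) : ℝ) ≤ max (max u 1 + 1 - ((0 : ℕ) : ℝ)) 1 := le_max_left _ _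
      simp
    | succ j ih =>
      intro s hs
      obtain ⟨b, hb⟩ : ∃ b, b = max u 1 + 1 - (j : ℝ) := ⟨_, rfl⟩
      rw [← hb] at ih
      rcases le_or_gt 2 b with h2 | h2
      · have h3 : ∀ s, b ≤ s → ℓ - om s = 0 := fun s hs' => ih s (max_le hs' (by linarith))
        refine step2 b h2 h3 s ?_
        have : max u 1 + 1 - ((j + 1 : ℕ) : ℝ) ≤ s := (le_max_left _ _).trans hs
        push_cast at this
        linarith
      · have h3 : ∀ s, (2 : ℝ) ≤ s → ℓ - om s = 0 := fun s hs' => ih s (max_le (by linarith) (by linarith))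
        exact step2 2 le_rfl h3 s (by linarith [(le_max_right _ _).trans hs])
  obtain ⟨j, hj⟩ := exists_nat_ge (max u 1 + 1)
  have h1 := step3 j 1 (max_le (by linarith) le_rfl)
  have h2 := step3 j 2 (max_le (by linarith) (by norm_num))
  have h3 := om_small 1 le_rfl (by norm_num)
  have h4 := om_small 2 (by norm_num) le_rfl
  linarith

end osc

end Pool.Agent.T2H62.MM
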