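import Pool.Agent.T2H62.MM.C

set_option autoImplicit false

/-! # Uniform lower bound for the mean; few rough numbers have a prime factor just above the level -/

namespace Pool.Agent.T2H62.MM

open Finset Filter Topology MeasureTheory ProbabilityTheory
open Pool.Agent.T2H53.GW
open Pool.Agent.T2H62.MD
open Pool.Agent.T2H62.MS (log_ge_one pr_ge_block)
open Pool.Agent.H305R2 (VV VV_tendsto)
open Pool.Agent.T2H32.BF (V V_pos V_anti mertens)
open Pool.Agent.T2H32.GM (Rg fl_main V_le Phi Phi_le Phi_eq)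

/-- lower bound for the mean, uniformly in the length -/
theorem mean_lo_unif {A : ℝ} (hA : 0 < A) (t : ℝ) (ht : 2 < t) (ht3 : t ≤ 3) : ∃ c : ℝ, 0 < c ∧ ∀ᶠ x : ℕ in atTop, ∀ y : ℕ,
    Real.log x ^ t ≤ y → y ^ 2 ≤ x → c * (y / Real.log x) ≤ ∑ n ∈ Ioc x (x + y), pr A n := by
  obtain ⟨c, hc, hm⟩ := mean_lowt hA t ht ht3
  obtain ⟨x₀, hx₀⟩ := eventually_atTop.1 hm
  refine ⟨c / 8, by positivity, ?_⟩
  have g1 : ∀ᶠ u : ℝ in atTop, (u + 1) ^ t ≤ 2 * u ^ t := by
    -- u + 1 ≤ 2^(1/t) u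
    have h1 : (1 : ℝ) < (2 : ℝ) ^ (1 / t) := Real.one_lt_rpow (by norm_num) (by positivity)
    filter_upwards [eventually_ge_atTop (1 / ((2 : ℝ) ^ (1 / t) - 1)), eventually_ge_atTop 1] with u hu hu1
    have h2 : u + 1 ≤ (2 : ℝ) ^ (1 / t) * u := by
      rw [div_le_iff₀ (by linarith)] at hu
      linarith
    calc (u + 1) ^ t ≤ ((2 : ℝ) ^ (1 / t) * u) ^ t := Real.rpow_le_rpow (by linarith) h2 (by linarith)
      _ = 2 * u ^ t := by
          rw [Real.mul_rpow (by positivity) (by linarith), ← Real.rpow_mul (by norm_num), one_div_mul_cancel (by linarith), Real.rpow_one]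
  filter_upwards [eventually_ge_atTop x₀, lv_window hA, tlog.eventually g1, tlog.eventually_ge_atTop 2, eventually_ge_atTop 3]
    with x h1 h2 h3 h4 h5 y hy hy2
  obtain ⟨ℓ, hℓ⟩ : ∃ ℓ : ℝ, ℓ = Real.log x := ⟨_, rfl⟩
  have hm' := hx₀ x h1
  rw [← hℓ] at h3 h4 hy hm' ⊢
  have hl0 : 0 < ℓ := by linarith
  have hlt : (2 : ℝ) ≤ ℓ ^ t := by
    calc (2 : ℝ) ≤ ℓ := h4
      _ = ℓ ^ (1 : ℝ) := (Real.rpow_one _).symm
      _ ≤ ℓ ^ t := Real.rpow_le_rpow_of_exponent_le (by linarith) (by linarith)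
  have hf : ∀ n, 0 ≤ pr A n := fun n => pr_nonneg A n
  obtain ⟨M, hM⟩ : ∃ M : ℕ, M = ⌊2 * ℓ ^ t⌋₊ := ⟨_, rfl⟩
  have hM1 : (M : ℝ) ≤ 2 * ℓ ^ t := by rw [hM]; exact Nat.floor_le (by positivity)
  have hpiece : ∀ x' : ℕ, x ≤ x' → x' ≤ x + y → ∃ L : ℕ, 1 ≤ L ∧ L ≤ M ∧ c / (2 * ℓ) * L ≤ ∑ n ∈ Ioc x' (x' + L), pr A n := by
    intro x' hx1 hx2
    have h6 := hx₀ x' (h1.trans hx1)
    obtain ⟨-, -, a1, a2⟩ := h2 x' hx1 (le_trans (Nat.pow_le_pow_left (by omega) 2) hy2)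
    rw [← hℓ] at a1 a2
    have a3 : Real.log x' ≤ ℓ + 1 := by
      have hs : (1 : ℝ) ≤ Real.sqrt x := by
        rw [Real.one_le_sqrt]
        exact_mod_cast (by omega : 1 ≤ x)
      have : 1 / Real.sqrt x ≤ 1 := by
        rw [div_le_one (by linarith)]
        exact hs
      linarith
    refine ⟨⌊Real.log x' ^ t⌋₊, ?_, ?_, ?_⟩
    · apply Nat.le_floor
      rw [Nat.cast_one]
      exact Real.one_le_rpow (by linarith) (by linarith)
    · rw [hM]
      apply Nat.floor_le_floor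
      exact (Real.rpow_le_rpow (by linarith) a3 (by linarith)).trans h3
    · refine le_trans ?_ h6
      rw [div_mul_eq_mul_div, mul_div_assoc]
      apply mul_le_mul_of_nonneg_left _ hc.le
      apply div_le_div_of_nonneg_left (Nat.cast_nonneg _) (by linarith) (by linarith)
  have hs := split_low (fun n => pr A n) hf (c / (2 * ℓ)) (by positivity) M (x + y) y x le_rfl hpiece
  rcases le_or_gt (2 * M : ℝ) y with h6 | h6
  · refine le_trans ?_ hs
    have h7 : c / 8 * (y / ℓ) = c / (2 * ℓ) * (y / 4) := by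
      field_simp
      ring
    rw [h7]
    apply mul_le_mul_of_nonneg_left _ (by positivity)
    have : (0 : ℝ) ≤ y := Nat.cast_nonneg _
    linarith
  · have h7 : ∑ n ∈ Ioc x (x + ⌊ℓ ^ t⌋₊), pr A n ≤ ∑ n ∈ Ioc x (x + y), pr A n := by
      apply sum_le_sum_of_subset_of_nonneg
      · apply Ioc_subset_Ioc_right
        have : ⌊ℓ ^ t⌋₊ ≤ y := Nat.floor_le_of_le hy
        omega
      · intro n _ _
        exact hf n
    refine le_trans ?_ h7
    refine le_trans ?_ hm'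
    have h8 : ℓ ^ t < ⌊ℓ ^ t⌋₊ + 1 := Nat.lt_floor_add_one _
    have h9 : (y : ℝ) ≤ 8 * ⌊ℓ ^ t⌋₊ := by linarith
    calc c / 8 * ((y : ℝ) / ℓ) ≤ c / 8 * (8 * ⌊ℓ ^ t⌋₊ / ℓ) := by
          apply mul_le_mul_of_nonneg_left _ (by positivity)
          exact div_le_div_of_nonneg_right h9 hl0.le
      _ = c * (⌊ℓ ^ t⌋₊ / ℓ) := by ring

/-- few multiples of a large prime `p > T` are free of primes `≤ T` -/
theorem mult_few : ∃ C : ℝ, 0 < C ∧ ∀ᶠ T : ℕ in atTop, ∀ p X Y : ℕ, T < p → T ^ 2 ≤ 2 * Y →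
    (((Ioc X (X + Y)).filter (fun n => p ∣ n ∧ ∀ q ≤ T, q.Prime → ¬ q ∣ n)).card : ℝ) ≤ C * (Y / (T * Real.log T)) := by
  classical
  obtain ⟨C0, hC0, hfl⟩ := fl_main
  obtain ⟨K1, hK10, hK1⟩ := hfl C0 le_rfl
  obtain ⟨B, hB0, hB⟩ := V_le
  obtain ⟨e, he⟩ : ∃ e : ℕ, e = 4 * C0 * C0 + 1 := ⟨_, rfl⟩
  rw [← he] at hK1
  have he5 : 5 ≤ e := by rw [he]; nlinarith
  have heR : (5 : ℝ) ≤ e := by exact_mod_cast he5
  have he0 : (0 : ℝ) < e := by linarith
  refine ⟨16 * B * e + 1, by positivity, ?_⟩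
  have hT : Tendsto (fun n : ℕ => (n : ℝ)) atTop atTop := tendsto_natCast_atTop_atTop
  have g2 : ∀ᶠ u : ℝ in atTop, (2 : ℝ) ≤ u ^ (1 / (2 * e : ℝ)) - 1 ∧ u ^ (1 / (4 * e : ℝ)) ≤ u ^ (1 / (2 * e : ℝ)) - 1 := by
    have h3 := (tendsto_rpow_atTop (show (0 : ℝ) < 1 / (4 * e) by positivity)).eventually_ge_atTop 3
    filter_upwards [h3, eventually_ge_atTop 1] with u hu hu2
    have h5 : u ^ (1 / (4 * e : ℝ)) * u ^ (1 / (4 * e : ℝ)) = u ^ (1 / (2 * e : ℝ)) := by
      rw [← Real.rpow_add (by linarith)]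
      congr 1
      field_simp
      norm_num
    constructor
    · nlinarith
    · nlinarith
  have g3 : ∀ᶠ u : ℝ in atTop, 2 * K1 * Real.log u ≤ u ^ (1 / 2 : ℝ) := by
    have h3 := (isLittleO_log_rpow_atTop (show (0 : ℝ) < 1 / 2 by norm_num)).bound (show (0 : ℝ) < 1 / (2 * K1) by positivity)
    filter_upwards [h3, eventually_ge_atTop 1] with u hu hu1
    rw [Real.norm_eq_abs, Real.norm_eq_abs, abs_of_nonneg (Real.rpow_nonneg (by linarith) (1 / 2 : ℝ))] at hu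
    have h6 := mul_le_mul_of_nonneg_left ((le_abs_self _).trans hu) (show 0 ≤ 2 * K1 by positivity)
    have h7 : 2 * K1 * (1 / (2 * K1) * u ^ (1 / 2 : ℝ)) = u ^ (1 / 2 : ℝ) := by field_simp
    rwa [h7] at h6
  filter_upwards [hT.eventually g2, hT.eventually g3, eventually_ge_atTop 3] with T h1 h2 h3 p X Y hp hY
  obtain ⟨u, hu⟩ : ∃ u : ℝ, u = T := ⟨_, rfl⟩
  rw [← hu] at h1 h2 ⊢
  have hu3 : 3 ≤ u := by rw [hu]; exact_mod_cast h3
  have hu0 : 0 < u := by linarith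
  have hlu : 0 < Real.log u := Real.log_pos (by linarith)
  obtain ⟨T', hT'⟩ : ∃ T' : ℕ, T' = ⌊u ^ (1 / (2 * e : ℝ))⌋₊ := ⟨_, rfl⟩
  have b1 : (T' : ℝ) ≤ u ^ (1 / (2 * e : ℝ)) := by rw [hT']; exact Nat.floor_le (by positivity)
  have b2 : u ^ (1 / (2 * e : ℝ)) - 1 ≤ T' := by
    have := Nat.lt_floor_add_one (u ^ (1 / (2 * e : ℝ)))
    rw [← hT'] at this
    linarith
  have b3 : 2 ≤ T' := by
    have : (2 : ℝ) ≤ T' := by linarith
    exact_mod_cast this
  have b4 : T' ≤ T := by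
    have : (T' : ℝ) ≤ T := by
      rw [← hu]
      refine b1.trans ?_
      calc u ^ (1 / (2 * e : ℝ)) ≤ u ^ (1 : ℝ) := by
            apply Real.rpow_le_rpow_of_exponent_le (by linarith)
            rw [div_le_one (by positivity)]
            linarith
        _ = u := Real.rpow_one u
    exact_mod_cast this
  have b5 : (T' : ℝ) ^ e ≤ u ^ (1 / 2 : ℝ) := by
    calc (T' : ℝ) ^ e ≤ (u ^ (1 / (2 * e : ℝ))) ^ e := pow_le_pow_left₀ (by positivity) b1 e
      _ = u ^ (1 / 2 : ℝ) := by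
          rw [← Real.rpow_natCast, ← Real.rpow_mul hu0.le]
          congr 1
          field_simp
  have b6 : Real.log u / (4 * e) ≤ Real.log T' := by
    have h4 : u ^ (1 / (4 * e : ℝ)) ≤ T' := by linarith
    have h5 := Real.log_le_log (by positivity) h4
    rw [Real.log_rpow hu0] at h5
    calc Real.log u / (4 * e) = 1 / (4 * e) * Real.log u := by ring
      _ ≤ _ := h5
  have b7 : V T' ≤ B * (4 * e) / Real.log u := by
    refine (hB T' b3).trans ?_
    rw [div_le_div_iff₀ (by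
      have : 0 < Real.log u / (4 * e) := by positivity
      linarith) hlu]
    have : Real.log u ≤ 4 * e * Real.log T' := by
      rw [div_le_iff₀ (by positivity)] at b6
      linarith
    nlinarith
  -- the map
  have hp0 : 0 < p := by omega
  have c1 : ((Ioc X (X + Y)).filter (fun n => p ∣ n ∧ ∀ q ≤ T, q.Prime → ¬ q ∣ n)).card ≤
      ((Ioc (X / p) (X / p + (Y / p + 1))).filter (Rg T')).card := by
    apply card_le_card_of_injOn (fun n => n / p)
    · intro n hn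
      rw [mem_coe, mem_filter, mem_Ioc] at hn
      obtain ⟨⟨n1, n2⟩, ⟨m, rfl⟩, n4⟩ := hn
      rw [mem_coe, mem_filter, mem_Ioc]
      have e1 : p * m / p = m := Nat.mul_div_cancel_left m hp0
      show (X / p < p * m / p ∧ p * m / p ≤ X / p + (Y / p + 1)) ∧ Rg T' (p * m / p)
      rw [e1]
      refine ⟨⟨?_, ?_⟩, ?_⟩
      · rw [Nat.div_lt_iff_lt_mul hp0]
        linarith [mul_comm p m]
      · have e2 : m ≤ (X + Y) / p := by
          rw [Nat.le_div_iff_mul_le hp0]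
          linarith [mul_comm p m]
        have e3 : (X + Y) / p ≤ X / p + Y / p + 1 := by
          rw [Nat.div_le_iff_le_mul_add_pred hp0]
          have e4 := Nat.div_add_mod X p
          have e5 := Nat.div_add_mod Y p
          have e6 := Nat.mod_lt X hp0
          have e7 := Nat.mod_lt Y hp0
          have e8 : p * (X / p + Y / p + 1) = p * (X / p) + p * (Y / p) + p := by ring
          rw [e8]
          omega
        omega
      · intro q hq hqp hd
        exact n4 q (hq.trans b4) hqp (hd.mul_left p)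
    · intro a ha b hb hab
      rw [mem_coe, mem_filter] at ha hb
      obtain ⟨a', rfl⟩ := ha.2.1
      obtain ⟨b', rfl⟩ := hb.2.1
      simp only at hab
      rw [Nat.mul_div_cancel_left a' hp0, Nat.mul_div_cancel_left b' hp0] at hab
      rw [hab]
  have c2 := (abs_le.1 (hK1 T' (X / p) (Y / p + 1) (by omega))).2
  have hYT : (T : ℝ) ^ 2 ≤ 2 * Y := by exact_mod_cast hY
  rw [← hu] at hYT
  have c3 : ((Y / p + 1 : ℕ) : ℝ) ≤ 2 * (Y / u) := by
    push_cast
    have d1 : ((Y / p : ℕ) : ℝ) ≤ Y / p := Nat.cast_div_le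
    have d2 : (Y : ℝ) / p ≤ Y / u := by
      apply div_le_div_of_nonneg_left (Nat.cast_nonneg _) hu0
      rw [hu]
      exact_mod_cast hp.le
    have d3 : (1 : ℝ) ≤ Y / u := by
      rw [le_div_iff₀ hu0]
      nlinarith
    linarith
  have hV0 : 0 < V T' := V_pos T'
  have c4 : (1 / 2 : ℝ) ^ C0 ≤ 1 := pow_le_one₀ (by norm_num) (by norm_num)
  have c5 : (1 / 2 : ℝ) ^ C0 * (V T' * ((Y / p + 1 : ℕ) : ℝ)) ≤ V T' * ((Y / p + 1 : ℕ) : ℝ) := by
    have : 0 ≤ V T' * ((Y / p + 1 : ℕ) : ℝ) := by positivity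
    nlinarith
  have c6 : V T' * ((Y / p + 1 : ℕ) : ℝ) ≤ B * (4 * e) / Real.log u * (2 * (Y / u)) := by
    apply mul_le_mul b7 c3 (by positivity) (by positivity)
  have c7 : K1 * (T' : ℝ) ^ e ≤ Y / (u * Real.log u) := by
    rw [le_div_iff₀ (by positivity)]
    have d1 : K1 * (T' : ℝ) ^ e * (u * Real.log u) ≤ K1 * u ^ (1 / 2 : ℝ) * (u * Real.log u) := by
      apply mul_le_mul_of_nonneg_right _ (by positivity)
      exact mul_le_mul_of_nonneg_left b5 hK10.le
    have d2 : u ^ (1 / 2 : ℝ) * u ^ (1 / 2 : ℝ) = u := by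
      rw [← Real.rpow_add hu0]
      norm_num
    have d3 : 2 * K1 * Real.log u * u ^ (1 / 2 : ℝ) ≤ u := by
      have d5 : 2 * K1 * Real.log u * u ^ (1 / 2 : ℝ) ≤ u ^ (1 / 2 : ℝ) * u ^ (1 / 2 : ℝ) :=
        mul_le_mul_of_nonneg_right h2 (by positivity)
      rwa [d2] at d5
    have d4 : 2 * (K1 * u ^ (1 / 2 : ℝ) * (u * Real.log u)) ≤ u * u := by
      calc 2 * (K1 * u ^ (1 / 2 : ℝ) * (u * Real.log u)) = (2 * K1 * Real.log u * u ^ (1 / 2 : ℝ)) * u := by ring
        _ ≤ u * u := mul_le_mul_of_nonneg_right d3 hu0.le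
    nlinarith
  have c8 : (((Ioc X (X + Y)).filter (fun n => p ∣ n ∧ ∀ q ≤ T, q.Prime → ¬ q ∣ n)).card : ℝ) ≤
      ((Ioc (X / p) (X / p + (Y / p + 1))).filter (Rg T')).card := by exact_mod_cast c1
  calc _ ≤ _ := c8
    _ ≤ 2 * (B * (4 * e) / Real.log u * (2 * (Y / u))) + Y / (u * Real.log u) := by linarith
    _ = (16 * B * e + 1) * (Y / (u * Real.log u)) := by
        field_simp
        ring

/-- **Few** of the integers without primes `≤ T` have a prime factor `≤ K T`. -/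
theorem loss (K : ℕ) (hK : 1 ≤ K) (ε : ℝ) (hε : 0 < ε) : ∀ᶠ T : ℕ in atTop, ∀ j : ℕ, j ≤ K * T → ∀ X Y : ℕ, T ^ 2 ≤ 2 * Y →
    (RC T X Y : ℝ) ≤ RC j X Y + ε * (Y / Real.log T) := by
  classical
  obtain ⟨C, hC0, hC⟩ := mult_few
  obtain ⟨C1, hC10, hC1⟩ := Phi_le
  have hT : Tendsto (fun n : ℕ => Real.log (n : ℝ)) atTop atTop := tlog
  filter_upwards [hC, eventually_ge_atTop 3, hT.eventually_ge_atTop (C1 * K * C / ε)] with T h1 h2 h3 j hj X Y hY
  have hT3 : (3 : ℝ) ≤ T := by exact_mod_cast h2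
  have hT0 : (0 : ℝ) < T := by linarith
  have hlT : 0 < Real.log (T : ℝ) := Real.log_pos (by linarith)
  obtain ⟨P, hP⟩ : ∃ P : Finset ℕ, P = (Ioc T (K * T)).filter Nat.Prime := ⟨_, rfl⟩
  have hPcard : (P.card : ℝ) ≤ C1 * (K * T / Real.log T) := by
    have b1 := hC1 T (by omega) ((K * T : ℕ) : ℝ) (by
      have : T ≤ K * T := Nat.le_mul_of_pos_left T (by omega)
      exact_mod_cast this)
    rw [Phi_eq, Nat.floor_natCast] at b1
    have b2 : P.card ≤ ((Ioc 0 (0 + K * T)).filter (Rg T)).card := by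
      apply card_le_card
      intro p hp
      rw [hP, mem_filter, mem_Ioc] at hp
      rw [mem_filter, mem_Ioc]
      refine ⟨by omega, fun q hq hqp hd => ?_⟩
      rcases (Nat.dvd_prime hp.2).1 hd with h | h
      · exact hqp.one_lt.ne' h
      · omega
    have b3 : (P.card : ℝ) ≤ (((Ioc 0 (0 + K * T)).filter (Rg T)).card : ℝ) := by exact_mod_cast b2
    refine (b3.trans b1).trans (le_of_eq ?_)
    push_cast
    ring
  have hsub : (Ioc X (X + Y)).filter (Rg T) ⊆ (Ioc X (X + Y)).filter (Rg j) ∪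
      P.biUnion (fun p => (Ioc X (X + Y)).filter (fun n => p ∣ n ∧ ∀ q ≤ T, q.Prime → ¬ q ∣ n)) := by
    intro n hn
    rw [mem_filter] at hn
    rw [mem_union, mem_filter, mem_biUnion]
    by_cases h4 : Rg j n
    · exact Or.inl ⟨hn.1, h4⟩
    · right
      unfold Rg at h4
      push Not at h4
      obtain ⟨p, hp1, hp2, hp3⟩ := h4
      refine ⟨p, ?_, ?_⟩
      · rw [hP, mem_filter, mem_Ioc]
        refine ⟨⟨?_, hp1.trans hj⟩, hp2⟩
        by_contra h5
        exact hn.2 p (by omega) hp2 hp3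
      · rw [mem_filter]
        exact ⟨hn.1, hp3, hn.2⟩
  have h4 : RC T X Y ≤ RC j X Y + ∑ p ∈ P, ((Ioc X (X + Y)).filter (fun n => p ∣ n ∧ ∀ q ≤ T, q.Prime → ¬ q ∣ n)).card := by
    unfold RC
    refine (card_le_card hsub).trans ((card_union_le _ _).trans ?_)
    exact Nat.add_le_add_left card_biUnion_le _
  have h5 : (RC T X Y : ℝ) ≤ RC j X Y + ∑ p ∈ P, (((Ioc X (X + Y)).filter (fun n => p ∣ n ∧ ∀ q ≤ T, q.Prime → ¬ q ∣ n)).card : ℝ) := by
    exact_mod_cast h4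
  refine h5.trans ?_
  have h6 : ∑ p ∈ P, (((Ioc X (X + Y)).filter (fun n => p ∣ n ∧ ∀ q ≤ T, q.Prime → ¬ q ∣ n)).card : ℝ) ≤ ε * (Y / Real.log T) := by
    calc ∑ p ∈ P, (((Ioc X (X + Y)).filter (fun n => p ∣ n ∧ ∀ q ≤ T, q.Prime → ¬ q ∣ n)).card : ℝ) ≤
          ∑ p ∈ P, C * (Y / (T * Real.log T)) := by
          apply sum_le_sum
          intro p hp
          rw [hP, mem_filter, mem_Ioc] at hp
          exact h1 p X Y hp.1.1 hY
      _ = P.card * (C * (Y / (T * Real.log T))) := by rw [sum_const, nsmul_eq_mul]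
      _ ≤ (C1 * (K * T / Real.log T)) * (C * (Y / (T * Real.log T))) := mul_le_mul_of_nonneg_right hPcard (by positivity)
      _ = C1 * K * C / Real.log T * (Y / Real.log T) := by field_simp
      _ ≤ ε * (Y / Real.log T) := by
          apply mul_le_mul_of_nonneg_right _ (by positivity)
          rw [div_le_iff₀ hlT]
          rw [div_le_iff₀ hε] at h3
          linarith
  linarith

end Pool.Agent.T2H62.MM
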