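import Pool.Agent.T2H62.MM.E

set_option autoImplicit false

/-! # Short windows with too few and with too many random primes -/

namespace Pool.Agent.T2H62.MM

open Finset Filter Topology MeasureTheory ProbabilityTheory
open Pool.Agent.T2H53.GW
open Pool.Agent.T2H62.MD
open Pool.Agent.T2H62.MS (log_ge_one pr_ge_block)
open Pool.Agent.T2H32.GM (om om_pos om_lim)

/-- sizes at the places of a window -/
theorem loc_facts (v t δ : ℝ) (hv : 3 ≤ v) (ht : 1 < t) (htv : t ≤ v - 1) (hδ : 0 < δ) (hδ1 : δ ≤ 1) : ∀ᶠ X : ℕ in atTop, ∀ Y : ℕ,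
    Real.log X ^ (v - 1 / 2) ≤ Y → Y ^ 2 ≤ X → 3 ≤ X ∧ (1 - δ) * (Real.log X + 1) ≤ Real.log X ∧
    ∃ M : ℕ, (M : ℝ) ≤ δ * Y ∧
    ∀ x : ℕ, X ≤ x → x ≤ X + Y → 1 ≤ ⌊Real.log x ^ t⌋₊ ∧ ⌊Real.log x ^ t⌋₊ ≤ M ∧ Real.log X ≤ Real.log x ∧ Real.log x ≤ Real.log X + 1 ∧
      Real.log x ^ t ≤ (1 + δ) * ⌊Real.log x ^ t⌋₊ := by
  have g1 : ∀ᶠ u : ℝ in atTop, (u + 1) ^ t ≤ δ * u ^ (v - 1 / 2) := by
    have h3 := (tendsto_rpow_atTop (show (0 : ℝ) < 1 / 2 by norm_num)).eventually_ge_atTop ((2 : ℝ) ^ (v - 1) / δ)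
    filter_upwards [h3, eventually_ge_atTop 1] with u hu hu1
    rw [div_le_iff₀ hδ] at hu
    calc (u + 1) ^ t ≤ (2 * u) ^ t := Real.rpow_le_rpow (by linarith) (by linarith) (by linarith)
      _ ≤ (2 * u) ^ (v - 1) := Real.rpow_le_rpow_of_exponent_le (by linarith) htv
      _ = (2 : ℝ) ^ (v - 1) * u ^ (v - 1) := Real.mul_rpow (by norm_num) (by linarith)
      _ ≤ u ^ (1 / 2 : ℝ) * δ * u ^ (v - 1) := mul_le_mul_of_nonneg_right hu (by positivity)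
      _ = δ * (u ^ (1 / 2 : ℝ) * u ^ (v - 1)) := by ring
      _ = δ * u ^ (v - 1 / 2) := by
          rw [← Real.rpow_add (by linarith)]
          congr 2
          ring
  have g2 : ∀ᶠ u : ℝ in atTop, 2 / δ ≤ u ^ t := (tendsto_rpow_atTop (by linarith)).eventually_ge_atTop _
  filter_upwards [lv_window one_pos, tlog.eventually g1, tlog.eventually_ge_atTop (2 / δ), eventually_ge_atTop 3,
    tlog.eventually_ge_atTop 2] with X h1 h2 h3 h4 h5 Y hY hY2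
  obtain ⟨ℓ, hℓ⟩ : ∃ ℓ : ℝ, ℓ = Real.log X := ⟨_, rfl⟩
  rw [← hℓ] at h2 h3 h5 hY ⊢
  rw [div_le_iff₀ hδ] at h3
  refine ⟨h4, by nlinarith, ⌊(ℓ + 1) ^ t⌋₊, ?_, ?_⟩
  · calc ((⌊(ℓ + 1) ^ t⌋₊ : ℕ) : ℝ) ≤ (ℓ + 1) ^ t := Nat.floor_le (by positivity)
      _ ≤ δ * ℓ ^ (v - 1 / 2) := h2
      _ ≤ δ * Y := mul_le_mul_of_nonneg_left hY hδ.le
  · intro x hx1 hx2
    obtain ⟨-, -, a1, a2⟩ := h1 x hx1 (le_trans (Nat.pow_le_pow_left (by omega) 2) hY2)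
    rw [← hℓ] at a1 a2
    have a3 : Real.log x ≤ ℓ + 1 := by
      have hs : (1 : ℝ) ≤ Real.sqrt X := by
        rw [Real.one_le_sqrt]
        exact_mod_cast (by omega : 1 ≤ X)
      have : 1 / Real.sqrt X ≤ 1 := by
        rw [div_le_one (by linarith)]
        exact hs
      linarith
    have a4 : ℓ ≤ Real.log x ^ t := by
      calc ℓ ≤ Real.log x := a1
        _ = Real.log x ^ (1 : ℝ) := (Real.rpow_one _).symm
        _ ≤ Real.log x ^ t := Real.rpow_le_rpow_of_exponent_le (by linarith) ht.le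
    refine ⟨?_, ?_, a1, a3, ?_⟩
    · apply Nat.le_floor
      rw [Nat.cast_one]
      linarith
    · apply Nat.floor_le_floor
      exact Real.rpow_le_rpow (by linarith) a3 (by linarith)
    · have a5 : Real.log x ^ t < ⌊Real.log x ^ t⌋₊ + 1 := Nat.lt_floor_add_one _
      have a6 : 2 ≤ Real.log x ^ t * δ := by nlinarith
      nlinarith

variable {Ω : Type*} {S : ℕ → Set Ω}

theorem pow_eq (ℓ t : ℝ) (hℓ : 0 < ℓ) : ℓ ^ (t - 1) = ℓ ^ t / ℓ := by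
  rw [Real.rpow_sub hℓ, Real.rpow_one]

/-- a deficit in long windows gives a deficit in shorter ones -/
theorem short_low {A : ℝ} (hA : 0 < A) (ω : Ω) (v t δ : ℝ) (hv : 3 ≤ v) (ht : 1 < t) (htv : t ≤ v - 1) (hδ : 0 < δ) (hδ1 : δ ≤ 1 / 4)
    (hom : GG * om v < 1 - 4 * δ)
    (hconc : ∀ᶠ x : ℕ in atTop, ∀ y : ℕ, Real.log x ^ (5 / 2 : ℝ) ≤ 2 * y → y ^ 2 ≤ x →
      |cnt (Ioc x (x + y)) S ω - ∑ n ∈ Ioc x (x + y), pr A n| ≤ δ * (y / Real.log x)) :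
    ∀ᶠ N : ℕ in atTop, ∃ x : ℕ, N ≤ x ∧ cnt (Ioc x (x + ⌊Real.log x ^ t⌋₊)) S ω ≤ (1 - δ) * Real.log x ^ (t - 1) := by
  obtain ⟨η, hη0, hη1, hη⟩ : ∃ η : ℝ, 0 < η ∧ η ≤ 1 ∧ (1 + η) ^ 3 * (GG * (om v + η)) < 1 - 3 * δ := by
    have hc : Continuous (fun η : ℝ => (1 + η) ^ 3 * (GG * (om v + η))) := by fun_prop
    have h1 := (hc.tendsto 0).eventually_lt_const (show (1 + (0 : ℝ)) ^ 3 * (GG * (om v + 0)) < 1 - 3 * δ by
      rw [add_zero, add_zero, one_pow, one_mul]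
      linarith)
    have h2 := (h1.filter_mono (nhdsWithin_le_nhds (s := Set.Ioi 0))).and (Ioo_mem_nhdsGT (show (0 : ℝ) < 1 by norm_num))
    obtain ⟨η, h3, h4⟩ := h2.exists
    exact ⟨η, h4.1, h4.2.le, h3⟩
  obtain ⟨K, hK, hf⟩ := sp_facts hA v hv
  have hloc := loc_facts v t (δ / 4) hv ht htv (by positivity) (by linarith)
  obtain ⟨x₀, hx₀⟩ := eventually_atTop.1 (hconc.and hloc)
  filter_upwards [hf, sp_up hA v hv η hη0 hη1, eventually_ge_atTop x₀] with N h1 h2 h3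
  obtain ⟨X, hX⟩ : ∃ X, X = Xn A N := ⟨_, rfl⟩
  obtain ⟨Y, hY⟩ : ∃ Y, Y = Yn A v N := ⟨_, rfl⟩
  rw [← hX, ← hY] at h1 h2
  obtain ⟨f1, -, -, -, f5, -, f7⟩ := h1
  obtain ⟨g1, g2⟩ := hx₀ X (h3.trans f1)
  obtain ⟨k1, k2, M, k3, k4⟩ := g2 Y f7 f5
  have hlX1 : 1 ≤ Real.log (X : ℝ) := log_ge_one k1
  have hlX : 0 < Real.log (X : ℝ) := by linarith
  have hY1 : (1 : ℝ) ≤ Y := le_trans (Real.one_le_rpow hlX1 (by linarith)) f7
  have hcn := g1 Y (by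
    have b1 : Real.log (X : ℝ) ^ (5 / 2 : ℝ) ≤ Real.log (X : ℝ) ^ (v - 1 / 2) :=
      Real.rpow_le_rpow_of_exponent_le hlX1 (by linarith)
    linarith) f5
  have hcn2 : cnt (Ioc X (X + Y)) S ω ≤ (1 - 2 * δ) * (Y / Real.log X) := by
    have b1 := (abs_le.1 hcn).2
    have b2 : (1 + η) ^ 3 * (GG * (om v + η)) * (Y / Real.log X) ≤ (1 - 3 * δ) * (Y / Real.log X) :=
      mul_le_mul_of_nonneg_right hη.le (by positivity)
    linarith
  by_contra hcon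
  push Not at hcon
  have hpiece : ∀ x' : ℕ, X ≤ x' → x' ≤ X + Y → ∃ L : ℕ, 1 ≤ L ∧ L ≤ M ∧
      (1 - δ) * (1 - δ / 4) / Real.log X * L ≤ ∑ n ∈ Ioc x' (x' + L), (S n).indicator (fun _ => (1 : ℝ)) ω := by
    intro x' h4 h5
    obtain ⟨m1, m2, m3, m4, m5⟩ := k4 x' h4 h5
    refine ⟨_, m1, m2, ?_⟩
    have h6 := (hcon x' (f1.trans h4)).le
    refine le_trans ?_ h6
    have hx0 : 0 < Real.log (x' : ℝ) := by linarith
    rw [pow_eq _ _ hx0]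
    have b1 : ((⌊Real.log x' ^ t⌋₊ : ℕ) : ℝ) ≤ Real.log x' ^ t := Nat.floor_le (by positivity)
    have b2 : (1 - δ / 4) / Real.log X ≤ 1 / Real.log x' := by
      rw [div_le_div_iff₀ hlX hx0, one_mul]
      refine le_trans ?_ k2
      exact mul_le_mul_of_nonneg_left m4 (by linarith)
    have b3 : 0 < 1 - δ / 4 := by linarith
    calc (1 - δ) * (1 - δ / 4) / Real.log X * (⌊Real.log x' ^ t⌋₊ : ℝ) = (1 - δ) * (((1 - δ / 4) / Real.log X) * (⌊Real.log x' ^ t⌋₊ : ℝ)) := by ring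
      _ ≤ (1 - δ) * ((1 / Real.log x') * (Real.log x' ^ t)) := by
          apply mul_le_mul_of_nonneg_left _ (by linarith)
          exact mul_le_mul b2 b1 (Nat.cast_nonneg _) (by positivity)
      _ = _ := by ring
  have hfn : ∀ n, 0 ≤ (S n).indicator (fun _ => (1 : ℝ)) ω := fun n => Set.indicator_nonneg (fun _ _ => zero_le_one) _
  have h7 := split_low (fun n => (S n).indicator (fun _ => (1 : ℝ)) ω) hfn ((1 - δ) * (1 - δ / 4) / Real.log X)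
    (div_nonneg (mul_nonneg (by linarith) (by linarith)) hlX.le) M (X + Y) Y X le_rfl hpiece
  have h8 : ∑ n ∈ Ioc X (X + Y), (S n).indicator (fun _ => (1 : ℝ)) ω ≤ (1 - 2 * δ) * (Y / Real.log X) := hcn2
  have h9 : (1 - δ) * (1 - δ / 4) / Real.log X * ((Y : ℝ) - M) ≤ (1 - 2 * δ) * (Y / Real.log X) := h7.trans h8
  have h10 : (1 - δ) * (1 - δ / 4) ^ 2 * (Y / Real.log X) ≤ (1 - 2 * δ) * (Y / Real.log X) := by
    refine le_trans ?_ h9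
    have b1 : (1 - δ / 4) * Y ≤ (Y : ℝ) - M := by linarith
    have b2 : 0 ≤ (1 - δ) * (1 - δ / 4) / Real.log X := div_nonneg (mul_nonneg (by linarith) (by linarith)) hlX.le
    calc (1 - δ) * (1 - δ / 4) ^ 2 * (Y / Real.log X) = (1 - δ) * (1 - δ / 4) / Real.log X * ((1 - δ / 4) * Y) := by ring
      _ ≤ _ := mul_le_mul_of_nonneg_left b1 b2
  have h11 : (1 - δ) * (1 - δ / 4) ^ 2 ≤ 1 - 2 * δ := le_of_mul_le_mul_right h10 (by positivity)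
  nlinarith [sq_nonneg δ, mul_pos hδ hδ, mul_pos (mul_pos hδ hδ) hδ]

/-- an excess in long windows gives an excess in shorter ones -/
theorem short_high {A : ℝ} (hA : 0 < A) (ω : Ω) (v t δ : ℝ) (hv : 3 ≤ v) (ht : 1 < t) (htv : t ≤ v - 1) (hδ : 0 < δ) (hδ1 : δ ≤ 1 / 4)
    (hom : 1 + 4 * δ < GG * om v)
    (hconc : ∀ᶠ x : ℕ in atTop, ∀ y : ℕ, Real.log x ^ (5 / 2 : ℝ) ≤ 2 * y → y ^ 2 ≤ x →
      |cnt (Ioc x (x + y)) S ω - ∑ n ∈ Ioc x (x + y), pr A n| ≤ δ * (y / Real.log x)) :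
    ∀ᶠ N : ℕ in atTop, ∃ x : ℕ, N ≤ x ∧ (1 + δ) * Real.log x ^ (t - 1) ≤ cnt (Ioc x (x + ⌊Real.log x ^ t⌋₊)) S ω := by
  have hompos := om_pos v (by linarith)
  obtain ⟨η, hη0, hη1, hη2, hη⟩ : ∃ η : ℝ, 0 < η ∧ η < 1 ∧ 2 * η ≤ om v ∧ 1 + 3 * δ < (1 - η) ^ 2 * (GG * (om v - 2 * η)) := by
    have hc : Continuous (fun η : ℝ => (1 - η) ^ 2 * (GG * (om v - 2 * η))) := by fun_prop
    have h1 := (hc.tendsto 0).eventually_const_lt (show 1 + 3 * δ < (1 - (0 : ℝ)) ^ 2 * (GG * (om v - 2 * 0)) by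
      rw [sub_zero, mul_zero, sub_zero, one_pow, one_mul]
      linarith)
    have h2 := (h1.filter_mono (nhdsWithin_le_nhds (s := Set.Ioi 0))).and
      (Ioo_mem_nhdsGT (show (0 : ℝ) < min 1 (om v / 2) by apply lt_min (by norm_num) (by linarith)))
    obtain ⟨η, h3, h4⟩ := h2.exists
    have h5 := h4.2.trans_le (min_le_left _ _)
    have h6 := h4.2.trans_le (min_le_right _ _)
    exact ⟨η, h4.1, h5, by linarith, h3⟩
  obtain ⟨K, hK, hf⟩ := sp_facts hA v hv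
  have hloc := loc_facts v t (δ / 4) hv ht htv (by positivity) (by linarith)
  obtain ⟨x₀, hx₀⟩ := eventually_atTop.1 (hconc.and hloc)
  filter_upwards [hf, sp_lo hA v hv η hη0 hη1 hη2, eventually_ge_atTop x₀] with N h1 h2 h3
  obtain ⟨X, hX⟩ : ∃ X, X = Xn A N := ⟨_, rfl⟩
  obtain ⟨Y, hY⟩ : ∃ Y, Y = Yn A v N := ⟨_, rfl⟩
  rw [← hX, ← hY] at h1 h2
  obtain ⟨f1, -, -, -, f5, -, f7⟩ := h1
  obtain ⟨g1, g2⟩ := hx₀ X (h3.trans f1)
  obtain ⟨k1, k2, M, k3, k4⟩ := g2 Y f7 f5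
  have hlX1 : 1 ≤ Real.log (X : ℝ) := log_ge_one k1
  have hlX : 0 < Real.log (X : ℝ) := by linarith
  have hY1 : (1 : ℝ) ≤ Y := le_trans (Real.one_le_rpow hlX1 (by linarith)) f7
  have hcn := g1 Y (by
    have b1 : Real.log (X : ℝ) ^ (5 / 2 : ℝ) ≤ Real.log (X : ℝ) ^ (v - 1 / 2) :=
      Real.rpow_le_rpow_of_exponent_le hlX1 (by linarith)
    linarith) f5
  have hcn2 : (1 + 2 * δ) * (Y / Real.log X) ≤ cnt (Ioc X (X + Y)) S ω := by
    have b1 := (abs_le.1 hcn).1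
    have b2 : (1 + 3 * δ) * (Y / Real.log X) ≤ (1 - η) ^ 2 * (GG * (om v - 2 * η)) * (Y / Real.log X) :=
      mul_le_mul_of_nonneg_right hη.le (by positivity)
    linarith
  by_contra hcon
  push Not at hcon
  have hpiece : ∀ x' : ℕ, X ≤ x' → x' ≤ X + Y → ∃ L : ℕ, 1 ≤ L ∧ L ≤ M ∧
      ∑ n ∈ Ioc x' (x' + L), (S n).indicator (fun _ => (1 : ℝ)) ω ≤ (1 + δ) * (1 + δ / 4) / Real.log X * L := by
    intro x' h4 h5
    obtain ⟨m1, m2, m3, m4, m5⟩ := k4 x' h4 h5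
    refine ⟨_, m1, m2, ?_⟩
    have h6 := (hcon x' (f1.trans h4)).le
    refine le_trans h6 ?_
    have hx0 : 0 < Real.log (x' : ℝ) := by linarith
    rw [pow_eq _ _ hx0]
    have b2 : 1 / Real.log x' ≤ 1 / Real.log X := one_div_le_one_div_of_le hlX m3
    calc (1 + δ) * (Real.log x' ^ t / Real.log x') = (1 + δ) * ((1 / Real.log x') * (Real.log x' ^ t)) := by ring
      _ ≤ (1 + δ) * ((1 / Real.log X) * ((1 + δ / 4) * ⌊Real.log x' ^ t⌋₊)) := by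
          apply mul_le_mul_of_nonneg_left _ (by linarith)
          exact mul_le_mul b2 m5 (by positivity) (by positivity)
      _ = _ := by ring
  have hfn : ∀ n, 0 ≤ (S n).indicator (fun _ => (1 : ℝ)) ω := fun n => Set.indicator_nonneg (fun _ _ => zero_le_one) _
  have h7 := split_up (fun n => (S n).indicator (fun _ => (1 : ℝ)) ω) hfn ((1 + δ) * (1 + δ / 4) / Real.log X)
    (by positivity) M (X + Y) Y X le_rfl hpiece
  have h8 : (1 + 2 * δ) * (Y / Real.log X) ≤ ∑ n ∈ Ioc X (X + Y), (S n).indicator (fun _ => (1 : ℝ)) ω := hcn2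
  have h9 : (1 + 2 * δ) * (Y / Real.log X) ≤ (1 + δ) * (1 + δ / 4) / Real.log X * ((Y : ℝ) + M) := h8.trans h7
  have h10 : (1 + 2 * δ) * (Y / Real.log X) ≤ (1 + δ) * (1 + δ / 4) ^ 2 * (Y / Real.log X) := by
    refine le_trans h9 ?_
    have b1 : (Y : ℝ) + M ≤ (1 + δ / 4) * Y := by linarith
    calc (1 + δ) * (1 + δ / 4) / Real.log X * ((Y : ℝ) + M) ≤ (1 + δ) * (1 + δ / 4) / Real.log X * ((1 + δ / 4) * Y) :=
          mul_le_mul_of_nonneg_left b1 (by positivity)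
      _ = _ := by ring
  have h11 : 1 + 2 * δ ≤ (1 + δ) * (1 + δ / 4) ^ 2 := le_of_mul_le_mul_right h10 (by positivity)
  nlinarith [sq_nonneg δ, mul_pos hδ hδ, mul_pos (mul_pos hδ hδ) hδ]

end Pool.Agent.T2H62.MM
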