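import Pool.Agent.T2H62.MM.F

set_option autoImplicit false

/-! # Special windows with an excess or a deficit of rough numbers, in every short interval -/

namespace Pool.Agent.T2H62.MM.Sh

open Finset Filter Topology MeasureTheory ProbabilityTheory
open Pool.Agent.T2H53.GW
open Pool.Agent.T2H62.MD
open Pool.Agent.T2H62.MM
open Pool.Agent.T2H62.MS (log_ge_one pr_ge_block)
open Pool.Agent.H305R2 (VV VV_tendsto)
open Pool.Agent.T2H32.BF (V V_pos V_anti mertens)
open Pool.Agent.T2H32.GM (Rg fl_main V_le Phi Phi_le Phi_eq om om_pos conv w count_shift)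

/-- the special level -/
noncomputable def Tn (A e : ℝ) (N : ℕ) : ℕ := ⌊min A e / 2 * Real.log N⌋₊
/-- the special place -/
noncomputable def Xn (A e : ℝ) (N : ℕ) : ℕ := primorial (Tn A e N) * (N / primorial (Tn A e N) + 1)
/-- the special length -/
noncomputable def Yn (A e v : ℝ) (N : ℕ) : ℕ := ⌊(Tn A e N : ℝ) ^ v⌋₊

theorem Tn_tendsto {A e : ℝ} (hA : 0 < A) (he : 0 < e) : Tendsto (Tn A e) atTop atTop :=
  tendsto_nat_floor_atTop.comp (tlog.const_mul_atTop (by have := lt_min hA he; positivity))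

theorem sp_facts {A e : ℝ} (hA : 0 < A) (he : 0 < e) (he1 : e ≤ 1) (v : ℝ) (hv : 3 ≤ v) : ∃ K : ℕ, 1 ≤ K ∧ ∀ᶠ N : ℕ in atTop,
    (N ≤ Xn A e N ∧ (Xn A e N : ℝ) + Yn A e v N ≤ N + (N : ℝ) ^ e) ∧ Real.log (Xn A e N) ≤ Real.log N + 1 ∧ Tn A e N ≤ lv A (Xn A e N) ∧ lv A (Xn A e N) + 1 ≤ K * Tn A e N ∧
    Yn A e v N ^ 2 ≤ Xn A e N ∧ Tn A e N ^ 2 ≤ 2 * Yn A e v N ∧ Real.log (Xn A e N) ^ (v - 1 / 2) ≤ Yn A e v N := by
  obtain ⟨c, hc⟩ : ∃ c : ℝ, c = min A e / 2 := ⟨_, rfl⟩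
  have hc0 : 0 < c := by rw [hc]; have := lt_min hA he; positivity
  have hce : c ≤ e / 2 := by rw [hc]; have := min_le_right A e; linarith
  have hc1 : c ≤ 1 / 2 := by linarith
  have hcA : c ≤ A / 2 := by rw [hc]; have := min_le_left A e; linarith
  refine ⟨⌈4 * A / c⌉₊ + 1, by omega, ?_⟩
  obtain ⟨m, hm⟩ := exists_nat_ge v
  have hTR : Tendsto (fun N => (Tn A e N : ℝ)) atTop atTop := tendsto_natCast_atTop_atTop.comp (Tn_tendsto hA he)
  have hr := ((tendsto_rpow_atTop (show (0 : ℝ) < 1 / 2 by norm_num)).comp hTR).eventually_ge_atTop (2 * (4 / c) ^ (v - 1 / 2))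
  filter_upwards [eventually_ge_atTop 3, tlog.eventually_ge_atTop (2 / c), tlog.eventually_ge_atTop 2,
    log_pow_small (2 * m) 1 1 one_pos one_pos, hr, (Tn_tendsto hA he).eventually_ge_atTop 2,
    log_pow_small m 1 (3 / 4 * e) (by positivity) one_pos,
    ((tendsto_rpow_atTop (show (0 : ℝ) < 1 / 4 * e by positivity)).comp tendsto_natCast_atTop_atTop).eventually_ge_atTop 2]
    with N h1 h2 h3 h4 h5 h6 h7 h8
  obtain ⟨ℓ, hℓ⟩ : ∃ ℓ : ℝ, ℓ = Real.log N := ⟨_, rfl⟩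
  obtain ⟨T, hT⟩ : ∃ T, T = Tn A e N := ⟨_, rfl⟩
  have hTd : T = ⌊c * ℓ⌋₊ := by rw [hT, hc, hℓ]; rfl
  obtain ⟨X, hX⟩ : ∃ X, X = Xn A e N := ⟨_, rfl⟩
  obtain ⟨Y, hY⟩ : ∃ Y, Y = Yn A e v N := ⟨_, rfl⟩
  have hXd : X = primorial T * (N / primorial T + 1) := by rw [hX, hT]; rfl
  have hYd : Y = ⌊(T : ℝ) ^ v⌋₊ := by rw [hY, hT]; rfl
  have h5' : 2 * (4 / c) ^ (v - 1 / 2) ≤ (T : ℝ) ^ (1 / 2 : ℝ) := by rw [hT]; exact h5
  rw [← hT, ← hX, ← hY, ← hℓ]
  rw [← hℓ] at h2 h3 h4 h7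
  rw [← hT] at h6
  simp only [Function.comp] at h8
  have hN0 : (0 : ℝ) < N := by exact_mod_cast (by omega : 0 < N)
  have hℓ0 : 0 < ℓ := by linarith
  have hT1 : (T : ℝ) ≤ c * ℓ := by rw [hTd]; exact Nat.floor_le (by positivity)
  have hT2 : c * ℓ < T + 1 := by rw [hTd]; exact Nat.lt_floor_add_one _
  have hP0 : 0 < primorial T := primorial_pos T
  have hPe : (primorial T : ℝ) ≤ (N : ℝ) ^ (3 / 4 * e) := by
    calc (primorial T : ℝ) ≤ (4 : ℝ) ^ T := by exact_mod_cast primorial_le_four_pow T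
      _ = Real.exp (T * (2 * Real.log 2)) := by
          rw [← Real.rpow_natCast, Real.rpow_def_of_pos (by norm_num)]
          congr 1
          have : Real.log 4 = 2 * Real.log 2 := by
            rw [show (4 : ℝ) = 2 ^ 2 by norm_num, Real.log_pow]
            norm_num
          rw [this]
          ring
      _ ≤ Real.exp (ℓ * (3 / 4 * e)) := by
          apply Real.exp_le_exp.2
          have b2 := Real.log_two_lt_d9
          have b3 : (0 : ℝ) < Real.log 2 := Real.log_pos (by norm_num)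
          have b4 : (T : ℝ) ≤ e / 2 * ℓ := hT1.trans (mul_le_mul_of_nonneg_right hce hℓ0.le)
          have b5 : 0 < e * ℓ := by positivity
          calc (T : ℝ) * (2 * Real.log 2) ≤ e / 2 * ℓ * (2 * Real.log 2) := mul_le_mul_of_nonneg_right b4 (by positivity)
            _ = Real.log 2 * (e * ℓ) := by ring
            _ ≤ 3 / 4 * (e * ℓ) := mul_le_mul_of_nonneg_right (by linarith) b5.le
            _ = ℓ * (3 / 4 * e) := by ring
      _ = (N : ℝ) ^ (3 / 4 * e) := by rw [hℓ, Real.rpow_def_of_pos hN0]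
  have hPN : primorial T ≤ N := by
    have b1 : (primorial T : ℝ) ≤ N := by
      calc (primorial T : ℝ) ≤ (4 : ℝ) ^ T := by exact_mod_cast primorial_le_four_pow T
        _ = Real.exp (T * (2 * Real.log 2)) := by
            rw [← Real.rpow_natCast, Real.rpow_def_of_pos (by norm_num)]
            congr 1
            have : Real.log 4 = 2 * Real.log 2 := by
              rw [show (4 : ℝ) = 2 ^ 2 by norm_num, Real.log_pow]
              norm_num
            rw [this]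
            ring
        _ ≤ Real.exp ℓ := by
            apply Real.exp_le_exp.2
            have b2 := Real.log_two_lt_d9
            have b3 : (0 : ℝ) < Real.log 2 := Real.log_pos (by norm_num)
            have b4 : (T : ℝ) ≤ 1 / 2 * ℓ := hT1.trans (mul_le_mul_of_nonneg_right hc1 hℓ0.le)
            nlinarith
        _ = N := by rw [hℓ, Real.exp_log hN0]
    exact_mod_cast b1
  have hNX : N < X := by rw [hXd]; exact Nat.lt_mul_div_succ N hP0
  have hX2 : X ≤ 2 * N := by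
    rw [hXd, mul_add, mul_one]
    have := Nat.mul_div_le N (primorial T)
    omega
  have hX0 : (0 : ℝ) < X := by exact_mod_cast (by omega : 0 < X)
  have hlX : Real.log X ≤ ℓ + 1 := by
    have b1 : (X : ℝ) ≤ 2 * N := by exact_mod_cast hX2
    have b2 := Real.log_le_log hX0 b1
    rw [Real.log_mul (by norm_num) hN0.ne', ← hℓ] at b2
    have b3 := Real.log_two_lt_d9
    linarith
  have hlX' : ℓ ≤ Real.log X := by rw [hℓ]; exact Real.log_le_log hN0 (by exact_mod_cast hNX.le)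
  have hcl : 2 ≤ c * ℓ := by
    rw [div_le_iff₀ hc0] at h2
    linarith
  have hTc : c * ℓ / 2 ≤ T := by linarith
  have hTv : (T : ℝ) ^ 3 ≤ (T : ℝ) ^ v := by
    rw [← Real.rpow_natCast]
    exact Real.rpow_le_rpow_of_exponent_le (by exact_mod_cast (by omega : 1 ≤ T)) (by exact_mod_cast hv)
  have hT0 : (2 : ℝ) ≤ T := by exact_mod_cast h6
  have hYm : (Y : ℝ) ≤ ℓ ^ m := by
    calc (Y : ℝ) ≤ (T : ℝ) ^ v := by rw [hYd]; exact Nat.floor_le (by positivity)
      _ ≤ ℓ ^ v := by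
          apply Real.rpow_le_rpow (by positivity) _ (by linarith)
          have : c * ℓ ≤ 1 / 2 * ℓ := mul_le_mul_of_nonneg_right hc1 hℓ0.le
          linarith
      _ ≤ ℓ ^ (m : ℝ) := Real.rpow_le_rpow_of_exponent_le (by linarith) hm
      _ = ℓ ^ m := Real.rpow_natCast _ _
  have hend : (X : ℝ) + Y ≤ N + (N : ℝ) ^ e := by
    have b1 : (X : ℝ) ≤ N + primorial T := by
      have : X ≤ N + primorial T := by
        rw [hXd, mul_add, mul_one]
        have := Nat.mul_div_le N (primorial T)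
        omega
      exact_mod_cast this
    have b2 : (N : ℝ) ^ e = (N : ℝ) ^ (1 / 4 * e) * (N : ℝ) ^ (3 / 4 * e) := by
      rw [← Real.rpow_add hN0]
      congr 1
      ring
    have b3 : 0 < (N : ℝ) ^ (3 / 4 * e) := by positivity
    rw [b2]
    nlinarith
  refine ⟨⟨hNX.le, hend⟩, hlX, ?_, ?_, ?_, ?_, ?_⟩
  · rw [hTd]
    unfold lv
    apply Nat.floor_le_floor
    calc c * ℓ ≤ A * ℓ := mul_le_mul_of_nonneg_right (by linarith) hℓ0.le
      _ ≤ A * Real.log X := mul_le_mul_of_nonneg_left hlX' hA.le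
  · have b1 : (lv A X : ℝ) ≤ A * Real.log X := by
      unfold lv
      exact Nat.floor_le (mul_nonneg hA.le (by linarith))
    have b2 : A * Real.log X ≤ 2 * A * ℓ := by
      have : A * Real.log X ≤ A * (ℓ + 1) := mul_le_mul_of_nonneg_left hlX hA.le
      nlinarith
    have b3 : 4 * A / c ≤ (⌈4 * A / c⌉₊ : ℝ) := Nat.le_ceil _
    have b4 : 2 * A * ℓ ≤ 4 * A / c * T := by
      calc 2 * A * ℓ = 4 * A / c * (c * ℓ / 2) := by
            field_simp
            norm_num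
        _ ≤ 4 * A / c * T := mul_le_mul_of_nonneg_left hTc (by positivity)
    have b5 : 4 * A / c * T ≤ (⌈4 * A / c⌉₊ : ℝ) * T := mul_le_mul_of_nonneg_right b3 (by positivity)
    have b6 : ((lv A X + 1 : ℕ) : ℝ) ≤ (((⌈4 * A / c⌉₊ + 1) * T : ℕ) : ℝ) := by
      push_cast
      linarith
    exact_mod_cast b6
  · have b1 : (Y : ℝ) ≤ ℓ ^ m := by
      calc (Y : ℝ) ≤ (T : ℝ) ^ v := by rw [hYd]; exact Nat.floor_le (by positivity)
        _ ≤ ℓ ^ v := by
            apply Real.rpow_le_rpow (by positivity) _ (by linarith)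
            have : c * ℓ ≤ 1 / 2 * ℓ := mul_le_mul_of_nonneg_right hc1 hℓ0.le
            linarith
        _ ≤ ℓ ^ (m : ℝ) := Real.rpow_le_rpow_of_exponent_le (by linarith) hm
        _ = ℓ ^ m := Real.rpow_natCast _ _
    have b2 : ((Y ^ 2 : ℕ) : ℝ) ≤ (X : ℝ) := by
      push_cast
      calc (Y : ℝ) ^ 2 ≤ (ℓ ^ m) ^ 2 := pow_le_pow_left₀ (by positivity) b1 2
        _ = 1 * ℓ ^ (2 * m) := by rw [one_mul, ← pow_mul, mul_comm]
        _ ≤ (N : ℝ) ^ (1 : ℝ) := h4
        _ = N := Real.rpow_one _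
        _ ≤ X := by exact_mod_cast hNX.le
    exact_mod_cast b2
  · have b1 : T ^ 3 ≤ Y := by
      rw [hYd]
      apply Nat.le_floor
      push_cast
      exact hTv
    have b2 : T ^ 2 ≤ T ^ 3 := Nat.pow_le_pow_right (by omega) (by norm_num)
    omega
  · have b1 : Real.log X ≤ 4 / c * T := by
      calc Real.log X ≤ 2 * ℓ := by linarith
        _ = 4 / c * (c * ℓ / 2) := by
            field_simp
            norm_num
        _ ≤ 4 / c * T := mul_le_mul_of_nonneg_left hTc (by positivity)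
    have b2 : Real.log X ^ (v - 1 / 2) ≤ (4 / c) ^ (v - 1 / 2) * (T : ℝ) ^ (v - 1 / 2) := by
      rw [← Real.mul_rpow (by positivity) (by positivity)]
      exact Real.rpow_le_rpow (by linarith) b1 (by linarith)
    have b3 : (T : ℝ) ^ (1 / 2 : ℝ) * (T : ℝ) ^ (v - 1 / 2) = (T : ℝ) ^ v := by
      rw [← Real.rpow_add (by linarith)]
      congr 1
      ring
    have b4 : 2 * (4 / c) ^ (v - 1 / 2) * (T : ℝ) ^ (v - 1 / 2) ≤ (T : ℝ) ^ v := by
      rw [← b3]
      exact mul_le_mul_of_nonneg_right h5' (by positivity)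
    have b5 : (T : ℝ) ^ v < Y + 1 := by rw [hYd]; exact Nat.lt_floor_add_one _
    have b6 : (8 : ℝ) ≤ (T : ℝ) ^ 3 := by
      calc (8 : ℝ) = 2 ^ 3 := by norm_num
        _ ≤ (T : ℝ) ^ 3 := pow_le_pow_left₀ (by norm_num) hT0 3
    linarith

/-- the mean in the special windows, from above -/
theorem sp_up {A e : ℝ} (hA : 0 < A) (he : 0 < e) (he1 : e ≤ 1) (v : ℝ) (hv : 3 ≤ v) (η : ℝ) (hη : 0 < η) (hη1 : η ≤ 1) : ∀ᶠ N : ℕ in atTop,
    ∑ n ∈ Ioc (Xn A e N) (Xn A e N + Yn A e v N), pr A n ≤ (1 + η) ^ 3 * (GG * (om v + η)) * (Yn A e v N / Real.log (Xn A e N)) := by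
  classical
  obtain ⟨K, hK, hf⟩ := sp_facts hA he he1 v hv
  obtain ⟨x₀, hx₀⟩ := eventually_atTop.1 (mean_le hA η hη)
  have hG := GG_pos
  have hom := om_pos v (by linarith)
  have hw := (conv v (by linarith)).eventually_lt_const (show om v < om v + η by linarith)
  have hTR : Tendsto (fun N => (Tn A e N : ℝ)) atTop atTop := tendsto_natCast_atTop_atTop.comp (Tn_tendsto hA he)
  filter_upwards [hf, eventually_ge_atTop (max x₀ 3), (Tn_tendsto hA he).eventually (VV_up K hK η hη hη1),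
    (Tn_tendsto hA he).eventually hw, (Tn_tendsto hA he).eventually_ge_atTop 3, hTR.eventually_ge_atTop ((1 + η) / η)] with N h1 h2 h3 h4 h5 h6
  obtain ⟨T, hT⟩ : ∃ T, T = Tn A e N := ⟨_, rfl⟩
  obtain ⟨X, hX⟩ : ∃ X, X = Xn A e N := ⟨_, rfl⟩
  obtain ⟨Y, hY⟩ : ∃ Y, Y = Yn A e v N := ⟨_, rfl⟩
  have hXd : X = primorial T * (N / primorial T + 1) := by rw [hX, hT]; rfl
  have hYd : Y = ⌊(T : ℝ) ^ v⌋₊ := by rw [hY, hT]; rfl
  rw [← hT, ← hX, ← hY] at h1
  rw [← hT] at h3 h4 h5 h6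
  rw [← hX, ← hY]
  obtain ⟨⟨f1, -⟩, f2, f3, f4, f5, f6, f7⟩ := h1
  have hT3 : (3 : ℝ) ≤ T := by exact_mod_cast h5
  have hlT : 0 < Real.log (T : ℝ) := Real.log_pos (by linarith)
  have hX3 : 3 ≤ X := ((le_max_right _ _).trans h2).trans f1
  have hlX : 0 < Real.log (X : ℝ) := by linarith [log_ge_one hX3]
  have b1 := hx₀ X (((le_max_left _ _).trans h2).trans f1) Y f5
  obtain ⟨j, hj⟩ : ∃ j, j = lv A X := ⟨_, rfl⟩
  rw [← hj] at b1 f3 f4
  have b2 : RC j X Y ≤ RC T X Y := RC_anti f3 X Y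
  have b3 : (RC T X Y : ℝ) = Phi T ((T : ℝ) ^ v) := by
    rw [Phi_eq, ← hYd]
    have := count_shift T 0 Y X (by rw [hXd]; exact dvd_mul_right _ _)
    rw [add_zero] at this
    unfold RC
    exact_mod_cast this
  have hTv : 0 < (T : ℝ) ^ v := by positivity
  have b4 : Phi T ((T : ℝ) ^ v) * Real.log T ≤ (om v + η) * (T : ℝ) ^ v := by
    unfold w at h4
    rw [div_lt_iff₀ hTv] at h4
    exact h4.le
  have b5 : VV j ≤ (1 + η) * GG * Real.log T := h3 j (by omega)
  have b6 : (T : ℝ) ^ v ≤ (1 + η) * Y := by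
    have c1 : (T : ℝ) ^ v < Y + 1 := by rw [hYd]; exact Nat.lt_floor_add_one _
    have c2 : (T : ℝ) ≤ (T : ℝ) ^ v := by
      calc (T : ℝ) = (T : ℝ) ^ (1 : ℝ) := (Real.rpow_one _).symm
        _ ≤ (T : ℝ) ^ v := Real.rpow_le_rpow_of_exponent_le (by linarith) (by linarith)
    have c3 : 1 + η ≤ η * T := by
      rw [div_le_iff₀ hη] at h6
      linarith
    have c4 : η * (T : ℝ) ≤ η * (T : ℝ) ^ v := mul_le_mul_of_nonneg_left c2 hη.le
    have c5 : η * (T : ℝ) ^ v ≤ η * (Y + 1) := mul_le_mul_of_nonneg_left c1.le hη.le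
    nlinarith
  have b7 : 0 ≤ VV j := by linarith [one_le_VV j]
  have hPhi : 0 ≤ Phi T ((T : ℝ) ^ v) := by rw [← b3]; positivity
  refine b1.trans ?_
  have b2' : (RC j X Y : ℝ) ≤ Phi T ((T : ℝ) ^ v) := by
    rw [← b3]
    exact_mod_cast b2
  calc (1 + η) * (VV j / Real.log X) * (RC j X Y : ℝ) ≤ (1 + η) * ((1 + η) * GG * Real.log T / Real.log X) * Phi T ((T : ℝ) ^ v) := by
        apply mul_le_mul _ b2' (Nat.cast_nonneg _) (by positivity)
        apply mul_le_mul_of_nonneg_left _ (by positivity)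
        exact div_le_div_of_nonneg_right b5 hlX.le
    _ = (1 + η) ^ 2 * GG / Real.log X * (Phi T ((T : ℝ) ^ v) * Real.log T) := by ring
    _ ≤ (1 + η) ^ 2 * GG / Real.log X * ((om v + η) * ((1 + η) * Y)) := by
        apply mul_le_mul_of_nonneg_left _ (by positivity)
        refine b4.trans ?_
        exact mul_le_mul_of_nonneg_left b6 (by positivity)
    _ = (1 + η) ^ 3 * (GG * (om v + η)) * (Y / Real.log X) := by ring

/-- the mean in the special windows, from below -/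
theorem sp_lo {A e : ℝ} (hA : 0 < A) (he : 0 < e) (he1 : e ≤ 1) (v : ℝ) (hv : 3 ≤ v) (η : ℝ) (hη : 0 < η) (hη1 : η < 1) (hηo : 2 * η ≤ om v) : ∀ᶠ N : ℕ in atTop,
    (1 - η) ^ 2 * (GG * (om v - 2 * η)) * (Yn A e v N / Real.log (Xn A e N)) ≤ ∑ n ∈ Ioc (Xn A e N) (Xn A e N + Yn A e v N), pr A n := by
  classical
  obtain ⟨K, hK, hf⟩ := sp_facts hA he he1 v hv
  obtain ⟨x₀, hx₀⟩ := eventually_atTop.1 (mean_ge hA η hη hη1)
  have hG := GG_pos
  have hom := om_pos v (by linarith)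
  have hw := (conv v (by linarith)).eventually_const_lt (show om v - η < om v by linarith)
  filter_upwards [hf, eventually_ge_atTop (max x₀ 3), (Tn_tendsto hA he).eventually (VV_dn η hη),
    (Tn_tendsto hA he).eventually hw, (Tn_tendsto hA he).eventually_ge_atTop 3, (Tn_tendsto hA he).eventually (loss K hK η hη)] with N h1 h2 h3 h4 h5 h6
  obtain ⟨T, hT⟩ : ∃ T, T = Tn A e N := ⟨_, rfl⟩
  obtain ⟨X, hX⟩ : ∃ X, X = Xn A e N := ⟨_, rfl⟩
  obtain ⟨Y, hY⟩ : ∃ Y, Y = Yn A e v N := ⟨_, rfl⟩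
  have hXd : X = primorial T * (N / primorial T + 1) := by rw [hX, hT]; rfl
  have hYd : Y = ⌊(T : ℝ) ^ v⌋₊ := by rw [hY, hT]; rfl
  rw [← hT, ← hX, ← hY] at h1
  rw [← hT] at h3 h4 h5 h6
  rw [← hX, ← hY]
  obtain ⟨⟨f1, -⟩, f2, f3, f4, f5, f6, f7⟩ := h1
  have hT3 : (3 : ℝ) ≤ T := by exact_mod_cast h5
  have hlT : 0 < Real.log (T : ℝ) := Real.log_pos (by linarith)
  have hX3 : 3 ≤ X := ((le_max_right _ _).trans h2).trans f1
  have hlX : 0 < Real.log (X : ℝ) := by linarith [log_ge_one hX3]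
  have b1 := hx₀ X (((le_max_left _ _).trans h2).trans f1) Y f5
  obtain ⟨j, hj⟩ : ∃ j, j = lv A X := ⟨_, rfl⟩
  rw [← hj] at b1 f3 f4
  have b2 := h6 (j + 1) f4 X Y f6
  have b3 : (RC T X Y : ℝ) = Phi T ((T : ℝ) ^ v) := by
    rw [Phi_eq, ← hYd]
    have := count_shift T 0 Y X (by rw [hXd]; exact dvd_mul_right _ _)
    rw [add_zero] at this
    unfold RC
    exact_mod_cast this
  have hTv : 0 < (T : ℝ) ^ v := by positivity
  have b4 : (om v - η) * (T : ℝ) ^ v ≤ Phi T ((T : ℝ) ^ v) * Real.log T := by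
    unfold w at h4
    rw [lt_div_iff₀ hTv] at h4
    exact h4.le
  have b5 : (1 - η) * GG * Real.log T ≤ VV j := h3 j f3
  have b6 : (Y : ℝ) ≤ (T : ℝ) ^ v := by rw [hYd]; exact Nat.floor_le hTv.le
  have hY0 : (0 : ℝ) ≤ Y := Nat.cast_nonneg _
  have b7 : (om v - 2 * η) * (Y / Real.log T) ≤ RC (j + 1) X Y := by
    have c1 : (om v - η) * (Y / Real.log T) ≤ Phi T ((T : ℝ) ^ v) := by
      rw [← mul_div_assoc, div_le_iff₀ hlT]
      refine le_trans ?_ b4
      exact mul_le_mul_of_nonneg_left b6 (by linarith)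
    rw [b3] at b2
    have c2 : (om v - 2 * η) * (Y / Real.log T) = (om v - η) * (Y / Real.log T) - η * (Y / Real.log T) := by ring
    linarith
  refine le_trans ?_ b1
  calc (1 - η) ^ 2 * (GG * (om v - 2 * η)) * (Y / Real.log X) =
        (1 - η) * ((1 - η) * GG * Real.log T / Real.log X) * ((om v - 2 * η) * (Y / Real.log T)) := by
        field_simp
    _ ≤ (1 - η) * (VV j / Real.log X) * (RC (j + 1) X Y : ℝ) := by
        have h0 : 0 < 1 - η := by linarith
        have h01 : 0 ≤ om v - 2 * η := by linarith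
        apply mul_le_mul _ b7 (by positivity)
        · have : 0 ≤ VV j := by linarith [one_le_VV j]
          positivity
        · apply mul_le_mul_of_nonneg_left _ h0.le
          exact div_le_div_of_nonneg_right b5 hlX.le

end Pool.Agent.T2H62.MM.Sh
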